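import Pool.Agent.KS6_19.SU.L.H99.Ucp5

set_option autoImplicit false
set_option linter.unusedSectionVars false

open Filter Topology Set MeasureTheory Metric Complex
open scoped ENNReal NNReal Real ContDiff

namespace Pool.Agent.KS6_19.SU

open Pool.Agent.H99.Ucp

/-- The kernel integral at the point `1` is finite. -/
lemma kerA1 {a b : ℝ} (a0 : 0 ≤ a) (a2 : a < 2) (b0 : 0 ≤ b) (b2 : b < 2) (ab : 2 < a + b) :
    ∫⁻ z : ℂ, ‖z‖ₑ ^ (-a) * ‖z - 1‖ₑ ^ (-b) < ⊤ := by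
  have j := (integrable_one_add_norm (E := ℂ) (μ := volume) (r := a + b) (by simp; linarith)).2
  rw [hasFiniteIntegral_iff_ofReal (.of_forall fun z => by positivity)] at j
  have cov : (univ : Set ℂ) ⊆ ball 0 (1 / 2) ∪ (ball 1 (1 / 2) ∪ {z | 1 / 2 ≤ ‖z‖ ∧ 1 / 2 ≤ ‖z - 1‖}) := by
    intro z _
    simp only [mem_union, mem_ball, dist_eq_norm, sub_zero, mem_ofPred_eq]
    by_cases a : ‖z‖ < 1 / 2
    · exact .inl a
    by_cases b : ‖z - 1‖ < 1 / 2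
    · exact .inr (.inl b)
    exact .inr (.inr ⟨not_lt.1 a, not_lt.1 b⟩)
  rw [← setLIntegral_univ]
  refine (lintegral_mono_set cov).trans_lt ((lintegral_union_le _ _ _).trans_lt (ENNReal.add_lt_top.2
    ⟨?_, (lintegral_union_le _ _ _).trans_lt (ENNReal.add_lt_top.2 ⟨?_, ?_⟩)⟩))
  · calc _ ≤ ∫⁻ z in ball (0 : ℂ) (1 / 2), ‖z - 0‖ₑ ^ (-a) * .ofReal (2 ^ b) := by
          refine setLIntegral_mono' measurableSet_ball fun z hz => ?_
          rw [sub_zero]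
          gcongr
          have := norm_sub_norm_le 1 z
          rw [mem_ball_zero_iff] at hz
          rw [norm_sub_rev, norm_one] at this
          simpa using er (a := ‖z - 1‖) (b := 1) (s := b) (C := 2) b0 one_pos two_pos
            (by linarith)
      _ < ⊤ := by
          rw [lintegral_mul_const' _ _ ENNReal.ofReal_ne_top]
          exact ENNReal.mul_lt_top (near a2 0 _) ENNReal.ofReal_lt_top
  · calc _ ≤ ∫⁻ z in ball (1 : ℂ) (1 / 2), .ofReal (2 ^ a) * ‖z - 1‖ₑ ^ (-b) := by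
          refine setLIntegral_mono' measurableSet_ball fun z hz => ?_
          gcongr
          have := norm_sub_norm_le 1 z
          rw [mem_ball, dist_eq_norm] at hz
          rw [norm_sub_rev, norm_one] at this
          simpa using er (a := ‖z‖) (b := 1) (s := a) (C := 2) a0 one_pos two_pos
            (by linarith)
      _ < ⊤ := by
          rw [lintegral_const_mul' _ _ ENNReal.ofReal_ne_top]
          exact ENNReal.mul_lt_top ENNReal.ofReal_lt_top (near b2 1 _)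
  · calc _ ≤ ∫⁻ z : ℂ in {z | 1 / 2 ≤ ‖z‖ ∧ 1 / 2 ≤ ‖z - 1‖},
          (.ofReal (3 ^ a) * .ofReal (5 ^ b)) * .ofReal ((1 + ‖z‖) ^ (-(a + b))) := by
          refine setLIntegral_mono' (by measurability) fun z hz => ?_
          have := norm_sub_norm_le z 1
          rw [norm_one] at this
          have p : 0 < 1 + ‖z‖ := by positivity
          have a := er (a := ‖z‖) (b := 1 + ‖z‖) (s := a) (C := 3) a0 p (by norm_num)
            (by linarith [hz.1])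
          have b := er (a := ‖z - 1‖) (b := 1 + ‖z‖) (s := b) (C := 5) b0 p (by norm_num)
            (by linarith [hz.2])
          rw [ofReal_norm] at a b
          refine (mul_le_mul' a b).trans (le_of_eq ?_)
          rw [neg_add, ← ENNReal.ofReal_rpow_of_pos p, ENNReal.rpow_add _ _ (by simpa using p)
            ENNReal.ofReal_ne_top]
          ring
      _ ≤ _ := setLIntegral_le_lintegral _ _
      _ < ⊤ := by
          rw [lintegral_const_mul' _ _ (ENNReal.mul_ne_top ENNReal.ofReal_ne_top ENNReal.ofReal_ne_top)]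
          exact ENNReal.mul_lt_top (ENNReal.mul_lt_top ENNReal.ofReal_lt_top ENNReal.ofReal_lt_top) j

/-- Scaling of the kernel integral. -/
lemma kerA (a b : ℝ) {w : ℂ} (hw : w ≠ 0) : ∫⁻ z : ℂ, ‖z‖ₑ ^ (-a) * ‖z - w‖ₑ ^ (-b) =
    ‖w‖ₑ ^ (2 - (a + b)) * ∫⁻ z : ℂ, ‖z‖ₑ ^ (-a) * ‖z - 1‖ₑ ^ (-b) := by
  have w0 : ‖w‖ₑ ≠ 0 := by simpa using hw
  have := scal (volume : Measure ℂ) (f := fun z : ℂ => ‖z‖ₑ ^ (-a) * ‖z - w‖ₑ ^ (-b))
    (by fun_prop) hw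
  have e : ∀ z : ℂ, ‖w • z‖ₑ ^ (-a) * ‖w • z - w‖ₑ ^ (-b) =
      ‖w‖ₑ ^ (-a + -b) * (‖z‖ₑ ^ (-a) * ‖z - 1‖ₑ ^ (-b)) := fun z => by
    rw [smul_eq_mul, ← mul_sub_one, enorm_mul, enorm_mul,
      ENNReal.mul_rpow_of_ne_top enorm_ne_top enorm_ne_top,
      ENNReal.mul_rpow_of_ne_top enorm_ne_top enorm_ne_top,
      ENNReal.rpow_add _ _ w0 enorm_ne_top]
    ring
  simp only [e] at this
  rw [lintegral_const_mul _ (by fun_prop), Module.finrank_self, mul_one] at this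
  have t : 2 - (a + b) = 2 + (-a + -b) := by ring
  rw [t, ENNReal.rpow_add _ _ w0 enorm_ne_top, mul_assoc, this, ← mul_assoc, ENNReal.rpow_two,
    ENNReal.mul_inv_cancel (by simpa using w0) (by simp), one_mul]

/-- The Hardy potential `c / |z|`. -/
def HardyOK (c : ℝ) : Prop := 0 < c ∧ ∀ w : ℂ, w ≠ 0 →
  ∫⁻ z : ℂ, (.ofReal c * ‖z‖ₑ⁻¹) * ‖z‖ₑ ^ (-(2 : ℝ)⁻¹) * ‖z - w‖ₑ⁻¹ ≤ 4⁻¹ * ‖w‖ₑ ^ (-(2 : ℝ)⁻¹)

lemma exists_hardy : ∃ c : ℝ, HardyOK c := by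
  set κ := ∫⁻ z : ℂ, ‖z‖ₑ ^ (-(3 / 2) : ℝ) * ‖z - 1‖ₑ ^ (-(1 : ℝ))
  have κt : κ < ⊤ := kerA1 (by norm_num) (by norm_num) (by norm_num) (by norm_num) (by norm_num)
  have κ1 : κ + 1 ≠ ⊤ := ENNReal.add_ne_top.2 ⟨κt.ne, by simp⟩
  have c0 : (4⁻¹ * (κ + 1)⁻¹ : ℝ≥0∞) ≠ 0 :=
    mul_ne_zero (by simp) (ENNReal.inv_ne_zero.2 κ1)
  have ct : (4⁻¹ * (κ + 1)⁻¹ : ℝ≥0∞) ≠ ⊤ :=
    ENNReal.mul_ne_top (by simp) (ENNReal.inv_ne_top.2 (by simp))
  refine ⟨(4⁻¹ * (κ + 1)⁻¹ : ℝ≥0∞).toReal, ENNReal.toReal_pos c0 ct, fun w hw => ?_⟩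
  rw [ENNReal.ofReal_toReal ct]
  have e : ∀ᵐ z : ℂ, (4⁻¹ * (κ + 1)⁻¹ * ‖z‖ₑ⁻¹) * ‖z‖ₑ ^ (-(2 : ℝ)⁻¹) * ‖z - w‖ₑ⁻¹ =
      4⁻¹ * (κ + 1)⁻¹ * (‖z‖ₑ ^ (-(3 / 2) : ℝ) * ‖z - w‖ₑ ^ (-(1 : ℝ))) := by
    filter_upwards [(volume : Measure ℂ).ae_ne 0] with z hz
    rw [show (-(3 / 2) : ℝ) = -1 + -(2 : ℝ)⁻¹ by norm_num,
      ENNReal.rpow_add _ _ (by simpa using hz) enorm_ne_top, ENNReal.rpow_neg_one,
      ENNReal.rpow_neg_one]
    ring
  rw [lintegral_congr_ae e, lintegral_const_mul' _ _ ct, kerA _ _ hw,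
    show (2 - (3 / 2 + 1) : ℝ) = -(2 : ℝ)⁻¹ by norm_num]
  change 4⁻¹ * (κ + 1)⁻¹ * (‖w‖ₑ ^ (-(2 : ℝ)⁻¹) * κ) ≤ _
  calc _ = 4⁻¹ * ‖w‖ₑ ^ (-(2 : ℝ)⁻¹) * ((κ + 1)⁻¹ * κ) := by ring
    _ ≤ 4⁻¹ * ‖w‖ₑ ^ (-(2 : ℝ)⁻¹) * ((κ + 1)⁻¹ * (κ + 1)) := by gcongr; exact le_self_add
    _ = _ := by rw [ENNReal.inv_mul_cancel (by simp) κ1, mul_one]

/-- The weighted Schur type estimate with the exponent `1/2`. -/
lemma schurA {q : ℝ} (hq : 2 < q) : ∃ ε : ℝ≥0∞, ε ≠ 0 ∧ ∀ P : ℂ → ℝ≥0∞, Measurable P →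
    ∫⁻ z, P z ^ q * ‖z‖ₑ ^ (q - 2) ≤ ε → ∀ w : ℂ, w ≠ 0 →
      ∫⁻ z, P z * ‖z‖ₑ ^ (-(2 : ℝ)⁻¹) * ‖z - w‖ₑ⁻¹ ≤ 4⁻¹ * ‖w‖ₑ ^ (-(2 : ℝ)⁻¹) := by
  have q0 : 0 < q := by linarith
  have hc := Real.HolderConjugate.conjExponent (show 1 < q by linarith)
  set r := q.conjExponent with hr
  have rq : r = q / (q - 1) := rfl
  have r1 : 1 < r := hc.symm.lt
  have r0 : 0 < r := by linarith
  have ee : q⁻¹ + r⁻¹ = 1 := hc.inv_add_inv_eq_one
  have r2 : r < 2 := by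
    have : q⁻¹ < 2⁻¹ := inv_strictAnti₀ two_pos hq
    have : 2⁻¹ < r⁻¹ := by linarith
    exact (inv_lt_inv₀ two_pos r0).1 this
  have qi : q⁻¹ < 2⁻¹ := inv_strictAnti₀ two_pos hq
  have qi0 : 0 < q⁻¹ := inv_pos.2 q0
  have ri : r⁻¹ = 1 - q⁻¹ := by linarith
  set α : ℝ := 3 / 2 - 2 * q⁻¹ with hα
  have α0 : 0 < α := by rw [hα]; linarith
  have rr : r * r⁻¹ = 1 := mul_inv_cancel₀ r0.ne'
  have αr : α * r < 2 := by
    have : α < 2 * r⁻¹ := by rw [ri, hα]; linarith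
    calc α * r < 2 * r⁻¹ * r := by gcongr
      _ = 2 := by rw [mul_assoc, mul_comm _ r, rr, mul_one]
  have αr2 : 2 < α * r + r := by
    have : 2 * r⁻¹ < α + 1 := by rw [ri, hα]; linarith
    calc (2 : ℝ) = 2 * r⁻¹ * r := by rw [mul_assoc, mul_comm _ r, rr, mul_one]
      _ < (α + 1) * r := by gcongr
      _ = _ := by ring
  set κ := ∫⁻ z : ℂ, ‖z‖ₑ ^ (-(α * r)) * ‖z - 1‖ₑ ^ (-r)
  have κf : κ < ⊤ := kerA1 (by positivity) αr r0.le r2 αr2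
  have κt : κ ^ (1 / r) + 1 ≠ ⊤ :=
    ENNReal.add_ne_top.2 ⟨(ENNReal.rpow_lt_top_of_nonneg (by positivity) κf.ne).ne, by simp⟩
  refine ⟨(4⁻¹ * (κ ^ (1 / r) + 1)⁻¹) ^ q, ?_, fun P mP hP w hw => ?_⟩
  · exact (ENNReal.rpow_pos (ENNReal.mul_pos (by simp) (ENNReal.inv_ne_zero.2 κt))
      (ENNReal.mul_ne_top (by simp) (ENNReal.inv_ne_top.2 (by simp)))).ne'
  have H := ENNReal.lintegral_mul_le_Lp_mul_Lq (volume : Measure ℂ) hc
    (f := fun z => P z * ‖z‖ₑ ^ (1 - 2 * q⁻¹)) (g := fun z => ‖z‖ₑ ^ (-α) * ‖z - w‖ₑ⁻¹)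
    (by fun_prop) (by fun_prop)
  have e1 : ∫⁻ z, (P z * ‖z‖ₑ ^ (1 - 2 * q⁻¹)) ^ q = ∫⁻ z, P z ^ q * ‖z‖ₑ ^ (q - 2) :=
    lintegral_congr fun z => by
      rw [ENNReal.mul_rpow_of_nonneg _ _ q0.le, ← ENNReal.rpow_mul]; congr 2; field_simp
  have e2 : ∫⁻ z : ℂ, (‖z‖ₑ ^ (-α) * ‖z - w‖ₑ⁻¹) ^ r = ‖w‖ₑ ^ (2 - (α * r + r)) * κ := by
    rw [← kerA _ _ hw]
    refine lintegral_congr fun z => ?_
    rw [ENNReal.mul_rpow_of_nonneg _ _ r0.le, ← ENNReal.rpow_mul, ENNReal.inv_rpow,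
      ← ENNReal.rpow_neg, neg_mul]
  rw [e1, e2] at H
  calc _ = _ := lintegral_congr_ae ?_
    _ ≤ _ := H
    _ ≤ (4⁻¹ * (κ ^ (1 / r) + 1)⁻¹) * (‖w‖ₑ ^ (-(2 : ℝ)⁻¹) * (κ ^ (1 / r) + 1)) := by
        gcongr
        · refine (ENNReal.rpow_le_rpow hP (by positivity)).trans (le_of_eq ?_)
          rw [← ENNReal.rpow_mul, mul_one_div_cancel q0.ne', ENNReal.rpow_one]
        · have e3 : (2 - (α * r + r)) * (1 / r) = -(2 : ℝ)⁻¹ := by
            have h1 : (2 - (α * r + r)) * (1 / r) = 2 * r⁻¹ - α - 1 := by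
              field_simp
              ring
            rw [h1, ri, hα]; ring
          rw [ENNReal.mul_rpow_of_nonneg _ _ (by positivity), ← ENNReal.rpow_mul, e3]
          gcongr; exact le_self_add
    _ = _ := by
        rw [mul_mul_mul_comm, ENNReal.inv_mul_cancel (by simp) κt, mul_one]
  filter_upwards [(volume : Measure ℂ).ae_ne 0] with z hz
  simp only [Pi.mul_apply]
  rw [show -(2 : ℝ)⁻¹ = (1 - 2 * q⁻¹) + -α by rw [hα]; ring,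
    ENNReal.rpow_add _ _ (by simpa using hz) enorm_ne_top]
  ring

section
variable {F : Type*} [NormedAddCommGroup F] [NormedSpace ℝ F] [NormedSpace ℂ F]
  [IsScalarTower ℝ ℂ F] [CompleteSpace F]

/-- Unique continuation on a line, with a weighted `L^q` potential and a Hardy potential. -/
lemma line2 {c : ℝ} (hc : HardyOK c) {q : ℝ} (hq : 2 < q) {R : ℝ} (R0 : 0 < R)
    {U G : ℂ → F} {P : ℂ → ℝ≥0∞} (mU : StronglyMeasurable U) (mG : StronglyMeasurable G)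
    (mP : Measurable P) (h : App R U G) (hi : ∀ δ > 0, ∫⁻ z in ann δ R, (‖U z‖ₑ + ‖G z‖ₑ) < ⊤)
    (hv : Van U) (P1 : ∀ z, 1 ≤ P z)
    (hG : ∀ z, ‖G z‖ₑ ≤ (P z + .ofReal c * ‖z‖ₑ⁻¹) * ‖U z‖ₑ)
    (hP : ∫⁻ z in ann 0 R, P z ^ q * ‖z‖ₑ ^ (q - 2) < ⊤) : ∀ᵐ z, ‖z‖ < R → U z = 0 := by
  obtain ⟨ε, ε0, hε⟩ := schurA hq
  let s : Set ℝ := {r | ∀ᵐ z, ‖z‖ < r → U z = 0}
  have cl : IsClosed s := IsSeqClosed.isClosed fun x r hx hr => by
    filter_upwards [ae_all_iff.2 hx] with z hz k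
    obtain ⟨j, hj⟩ := (hr.eventually (lt_mem_nhds k)).exists
    exact hz j hj
  have s0 : (0 : ℝ) ∈ s := by
    show ∀ᵐ z : ℂ, ‖z‖ < 0 → U z = 0
    exact .of_forall fun z hz => absurd hz (norm_nonneg z).not_gt
  refine (show R ∈ s from (cl.inter isClosed_Icc).Icc_subset_of_forall_exists_gt (a := 0) (b := R)
    s0 ?_ ⟨R0.le, le_rfl⟩)
  rintro r ⟨hr, r0, rR⟩ y (hy : r < y)
  let ν := (volume : Measure ℂ).withDensity fun z => P z ^ q * ‖z‖ₑ ^ (q - 2)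
  let t : ℕ → Set ℂ := fun m => ann r (min R (r + 1 / (m + 1)))
  have T := tendsto_measure_iInter_atTop (μ := ν) (s := t) (fun m => (ann_m _ _).nullMeasurableSet)
    (fun i j ij z hz => ⟨hz.1, hz.2.trans (min_le_min_left _ (by gcongr))⟩)
    ⟨0, by
      rw [withDensity_apply _ (ann_m _ _)]
      exact ((lintegral_mono_set (show t 0 ⊆ ann 0 R from fun z hz =>
        ⟨norm_nonneg _, hz.2.trans (min_le_left _ _)⟩)).trans_lt hP).ne⟩
  have z0 : ν (⋂ m, t m) = 0 := by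
    refine withDensity_absolutelyContinuous _ _ (measure_mono_null (t := sphere 0 r) (fun z hz => ?_)
      (Measure.addHaar_sphere _ _ _))
    rw [mem_iInter] at hz
    rw [mem_sphere_zero_iff_norm]
    refine le_antisymm (le_of_forall_pos_le_add fun e e0 => ?_) (hz 0).1
    obtain ⟨m, hm⟩ := exists_nat_one_div_lt e0
    linarith [(hz m).2.trans (min_le_right _ _)]
  rw [z0] at T
  obtain ⟨m, hm⟩ := (T.eventually (gt_mem_nhds (pos_iff_ne_zero.2 ε0))).exists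
  set b := min R (r + 1 / (m + 1))
  have rb : r < b := lt_min rR (by rw [lt_add_iff_pos_right]; positivity)
  obtain ⟨a, ra, ab⟩ := exists_between (lt_min rb hy)
  obtain ⟨d, rd, da⟩ := exists_between ra
  rw [lt_min_iff] at ab
  have mP' : Measurable fun z : ℂ => P z + .ofReal c * ‖z‖ₑ⁻¹ := by fun_prop
  have hsmall : ∫⁻ z, (ann r b).indicator P z ^ q * ‖z‖ₑ ^ (q - 2) ≤ ε := by
    refine le_trans (le_of_eq ?_) hm.le
    rw [Function.comp_apply, withDensity_apply _ (ann_m _ _), ← lintegral_indicator (ann_m _ _)]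
    refine lintegral_congr fun z => ?_
    by_cases k : z ∈ ann r b
    · rw [indicator_of_mem k, indicator_of_mem k]
    · rw [indicator_of_notMem k, indicator_of_notMem k, ENNReal.zero_rpow_of_pos (by linarith), zero_mul]
  refine ⟨d, ?_, rd, by linarith⟩
  refine (step (q := 2) (by norm_num) (by linarith) da ab.1 (min_le_left _ _) mU mG mP' h hi hv
    (fun z => (P1 z).trans le_self_add) hG (fun w hw => ?_) hr).mono fun z hz k => hz k.le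
  calc _ ≤ ∫⁻ z, ((ann r b).indicator P z * ‖z‖ₑ ^ (-(2 : ℝ)⁻¹) * ‖z - w‖ₑ⁻¹ +
        (.ofReal c * ‖z‖ₑ⁻¹) * ‖z‖ₑ ^ (-(2 : ℝ)⁻¹) * ‖z - w‖ₑ⁻¹) := by
        refine lintegral_mono fun z => ?_
        rw [← add_mul, ← add_mul]
        gcongr
        by_cases k : z ∈ ann r b
        · rw [indicator_of_mem k, indicator_of_mem k]
        · rw [indicator_of_notMem k]; exact zero_le
    _ ≤ 4⁻¹ * ‖w‖ₑ ^ (-(2 : ℝ)⁻¹) + 4⁻¹ * ‖w‖ₑ ^ (-(2 : ℝ)⁻¹) := by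
        have mI : Measurable ((ann r b).indicator P) := mP.indicator (ann_m _ _)
        have mm : Measurable fun z : ℂ =>
            (ann r b).indicator P z * ‖z‖ₑ ^ (-(2 : ℝ)⁻¹) * ‖z - w‖ₑ⁻¹ := by fun_prop
        rw [lintegral_add_left mm]
        exact add_le_add (hε _ (mP.indicator (ann_m r b)) hsmall w hw) (hc.2 w hw)
    _ = 2⁻¹ * ‖w‖ₑ ^ (-(2 : ℝ)⁻¹) := by
        rw [← add_mul]
        congr 1
        rw [← ENNReal.toReal_eq_toReal_iff' (by simp) (by simp), ENNReal.toReal_add (by simp) (by simp)]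
        simp
        norm_num

end

end Pool.Agent.KS6_19.SU
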