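import Pool.Agent.KS6_19.SU.A
import Pool.Agent.KS6_19.SU.L.H99.Ucp8

set_option autoImplicit false
set_option linter.unusedSectionVars false

open Filter Topology Set MeasureTheory Metric Complex ContinuousLinearMap
open scoped ENNReal NNReal Real ContDiff Convolution

namespace Pool.Agent.KS6_19.SU

open Pool.Agent.H99.Ucp

variable {F : Type*} [NormedAddCommGroup F] [NormedSpace ℝ F] [NormedSpace ℂ F]
  [IsScalarTower ℝ ℂ F] [CompleteSpace F]
variable {E : Type*} [NormedAddCommGroup E] [NormedSpace ℝ E] [NormedSpace ℂ E]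
  [IsScalarTower ℝ ℂ E] [FiniteDimensional ℂ E] [FiniteDimensional ℝ E] [MeasurableSpace E]
  [BorelSpace E] (μ : Measure E) [μ.IsAddHaarMeasure]

theorem ballv2 {c : ℝ} (hc : HardyOK c) {q : ℝ} (hq : 2 < q)
    (hn : 1 ≤ Module.finrank ℂ E) {R : ℝ} (R0 : 0 < R) {z0 : E} {u : E → F}
    {G : E → E →L[ℝ] F} {P : E → ℝ≥0∞} (mu : StronglyMeasurable u) (mG : StronglyMeasurable G)
    (mP : Measurable P) (iu : Integrable u μ) (iG : Integrable G μ)
    (hw : Wk μ (ball z0 (3 * R)) u G) (P1 : ∀ y, 1 ≤ P y)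
    (hP : ∫⁻ y in closedBall z0 (2 * R), P y ^ q * ‖y - z0‖ₑ ^ (q - 2 * Module.finrank ℂ E) ∂μ < ⊤)
    (hG : ∀ y x, ‖dG (G y) x‖ₑ ≤ (P y + .ofReal c * ‖y - z0‖ₑ⁻¹) * ‖x‖ₑ * ‖u y‖ₑ)
    (hv : ∀ N : ℕ, Tendsto (fun r : ℝ => (ENNReal.ofReal (r ^ N))⁻¹ *
      ∫⁻ y in closedBall z0 r, ‖u y‖ₑ ∂μ) (𝓝[>] 0) (𝓝 0)) :
    ∀ᵐ y ∂μ, y ∈ ball z0 R → u y = 0 := by
  set n := Module.finrank ℂ E
  have nu := mu.enorm
  have nG := mG.enorm
  have dp : ∀ m : ℕ, (0 : ℝ) < 1 / (m + 1) := fun m => by positivity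
  let uj := fun j => (bp R R0 j).normed μ ⋆[lsmul ℝ ℝ, μ] u
  let Gj := fun j => (bp R R0 j).normed μ ⋆[lsmul ℝ ℝ, μ] G
  have su : ∀ j, ContDiff ℝ 1 (uj j) := fun j =>
    (bp R R0 j).hasCompactSupport_normed.contDiff_convolution_left _ (bp R R0 j).contDiff_normed
      iu.locallyIntegrable
  have sG : ∀ j, Continuous (Gj j) := fun j =>
    (bp R R0 j).hasCompactSupport_normed.continuous_convolution_left _ (bp R R0 j).continuous_normed
      iG.locallyIntegrable
  have m1 : ∀ j, Measurable fun y => ‖uj j y - u y‖ₑ := fun j =>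
    ((su j).continuous.stronglyMeasurable.sub mu).enorm
  have m2 : ∀ j, Measurable fun y => ‖Gj j y - G y‖ₑ := fun j =>
    ((sG j).stronglyMeasurable.sub mG).enorm
  have tr : Measurable fun y : E => z0 + y := by fun_prop
  have tl : ∀ f : E → ℝ≥0∞, ∫⁻ y, (f ∘ fun y => z0 + y) y ∂μ = ∫⁻ y, f y ∂μ := fun f =>
    lintegral_add_left_eq_self f z0
  have A : ∀ m : ℕ, ∀ᵐ x ∂μ.restrict (sh E), ∀ ε ≠ 0, ∃ᶠ j in atTop, ∫⁻ z in ann (1 / (m + 1)) R,
      (‖uj j (z0 + z • x) - u (z0 + z • x)‖ₑ + 4 * ‖Gj j (z0 + z • x) - G (z0 + z • x)‖ₑ) < ε :=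
    fun m => by
    have mf : ∀ j, Measurable fun y => ‖uj j y - u y‖ₑ + 4 * ‖Gj j y - G y‖ₑ := fun j =>
      (m1 j).add ((m2 j).const_mul _)
    refine fat (fun j => mI ((mf j).comp tr) _) ?_
    have T := ENNReal.Tendsto.const_mul (a := (ENNReal.ofReal (1 / (m + 1)) ^ (2 * n))⁻¹ *
      volume (closedBall (0 : ℂ) R)) ((mconv μ R0 iu).add (ENNReal.Tendsto.const_mul (a := 4)
        (mconv μ R0 iG) (.inr (by simp)))) (.inr (ct _ (dp m) _ _))
    simp only [mul_zero, add_zero] at T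
    refine tendsto_of_tendsto_of_tendsto_of_le_of_le tendsto_const_nhds T (fun j => zero_le) fun j => ?_
    refine (orbA μ ((mf j).comp tr) R).trans (le_of_eq ?_)
    congr 1
    rw [tl, lintegral_add_left (m1 j), lintegral_const_mul _ (m2 j)]
  have B : ∀ m : ℕ, ∀ᵐ x ∂μ.restrict (sh E), ∫⁻ z in ann (1 / (m + 1)) R,
      (‖u (z0 + z • x)‖ₑ + 4 * ‖G (z0 + z • x)‖ₑ) < ⊤ := fun m => by
    have mf : Measurable fun y => ‖u y‖ₑ + 4 * ‖G y‖ₑ := nu.add (nG.const_mul _)
    refine ae_lt_top (mI (mf.comp tr) _) (ne_of_lt ((orbA μ (mf.comp tr) R).trans_lt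
      (ENNReal.mul_lt_top (ct _ (dp m) _ _).lt_top ?_)))
    rw [tl, lintegral_add_left nu, lintegral_const_mul _ nG]
    exact ENNReal.add_lt_top.2 ⟨iu.2, ENNReal.mul_lt_top (by simp) iG.2⟩
  have C : ∀ N : ℕ, ∀ᵐ x ∂μ.restrict (sh E), ∀ ε ≠ 0, ∃ᶠ j : ℕ in atTop,
      (ENNReal.ofReal ((1 / (j + 1)) ^ N))⁻¹ * ∫⁻ z in ann (1 / (j + 1)) (2 * (1 / (j + 1))),
        ‖u (z0 + z • x)‖ₑ < ε := fun N => by
    refine fat (fun j => (mI (nu.comp tr) _).const_mul _) ?_
    have t0 : Tendsto (fun j : ℕ => 4 * (1 / (j + 1) : ℝ)) atTop (𝓝[>] 0) :=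
      tendsto_nhdsWithin_iff.2 ⟨by
        simpa using (tendsto_one_div_add_atTop_nhds_zero_nat (𝕜 := ℝ)).const_mul 4,
        .of_forall fun j => mul_pos four_pos (dp j)⟩
    have T := ENNReal.Tendsto.const_mul (a := .ofReal (4 ^ (N + 2 * n)) *
      volume (closedBall (0 : ℂ) 2)) ((hv (N + 2 * n)).comp t0)
      (.inr (ENNReal.mul_ne_top ENNReal.ofReal_ne_top measure_closedBall_lt_top.ne))
    rw [mul_zero] at T
    refine tendsto_of_tendsto_of_tendsto_of_le_of_le tendsto_const_nhds T (fun j => zero_le) fun j => ?_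
    have d0 := dp j
    have d1 : (1 / (j + 1) : ℝ) ≤ 1 := by rw [div_le_one (by positivity)]; simp
    simp only [Function.comp_apply]
    generalize (1 / (j + 1) : ℝ) = δ at d0 d1
    have mf : Measurable ((closedBall z0 (4 * δ)).indicator fun y => ‖u y‖ₑ) :=
      nu.indicator measurableSet_closedBall
    refine (lintegral_const_mul _ (mI (nu.comp tr) _)).le.trans ?_
    calc _ ≤ (ENNReal.ofReal (δ ^ N))⁻¹ * (((ENNReal.ofReal δ ^ (2 * n))⁻¹ *
          volume (closedBall (0 : ℂ) (2 * δ))) * ∫⁻ y in closedBall z0 (4 * δ), ‖u y‖ₑ ∂μ) := by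
          gcongr
          rw [← lintegral_indicator measurableSet_closedBall, ← tl]
          refine le_trans (setLIntegral_mono' sh_m fun x hx => setLIntegral_mono' (ann_m _ _)
            fun z hz => ?_) (orbA μ (mf.comp tr) (2 * δ))
          refine le_of_eq (indicator_of_mem (s := closedBall z0 (4 * δ)) (a := z0 + z • x) ?_
            fun y => ‖u y‖ₑ).symm
          rw [mem_closedBall, dist_eq_norm, add_sub_cancel_left, norm_smul]
          nlinarith [hz.2, hx.2, norm_nonneg z, norm_nonneg x]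
      _ ≤ (ENNReal.ofReal (δ ^ N))⁻¹ * (((ENNReal.ofReal δ ^ (2 * n))⁻¹ *
          volume (closedBall (0 : ℂ) 2)) * ∫⁻ y in closedBall z0 (4 * δ), ‖u y‖ₑ ∂μ) := by
          gcongr; linarith
      _ = _ := by
          have : (ENNReal.ofReal (δ ^ N))⁻¹ * (ENNReal.ofReal δ ^ (2 * n))⁻¹ =
              .ofReal (4 ^ (N + 2 * n)) * (ENNReal.ofReal ((4 * δ) ^ (N + 2 * n)))⁻¹ := by
            rw [← ENNReal.ofReal_pow d0.le, ← ENNReal.ofReal_inv_of_pos (by positivity),
              ← ENNReal.ofReal_inv_of_pos (by positivity), ← ENNReal.ofReal_inv_of_pos (by positivity),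
              ← ENNReal.ofReal_mul (by positivity), ← ENNReal.ofReal_mul (by positivity)]
            congr 1
            rw [mul_pow 4 δ, pow_add δ]; field_simp
          rw [← mul_assoc, ← mul_assoc, this]; ring
  have mQ : Measurable ((closedBall z0 (2 * R)).indicator
      fun y => P y ^ q * ‖y - z0‖ₑ ^ (q - 2 * (n : ℝ))) :=
    Measurable.indicator (by fun_prop) measurableSet_closedBall
  have D : ∀ᵐ x ∂μ.restrict (sh E), ∫⁻ z : ℂ, ‖z‖ₑ ^ ((2 * n : ℝ) - 2) *
      (closedBall z0 (2 * R)).indicator (fun y => P y ^ q * ‖y - z0‖ₑ ^ (q - 2 * (n : ℝ)))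
        (z0 + z • x) < ⊤ := by
    refine ae_lt_top (Measurable.lintegral_prod_right' (f := fun p : E × ℂ => ‖p.2‖ₑ ^ ((2 * n : ℝ) - 2) *
      (closedBall z0 (2 * R)).indicator (fun y => P y ^ q * ‖y - z0‖ₑ ^ (q - 2 * (n : ℝ)))
        (z0 + p.2 • p.1))
      (Measurable.mul (by fun_prop) (mQ.comp (by fun_prop))))
      (ne_of_lt ((orbB μ hn (mQ.comp tr)).trans_lt (ENNReal.mul_lt_top
        (ENNReal.mul_lt_top (by simp) (by simp)) ?_)))
    rwa [tl, lintegral_indicator measurableSet_closedBall]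
  have E1 : ∀ᵐ x ∂μ.restrict (sh E), ∀ᵐ z : ℂ, ‖z‖ < R → ‖u (z0 + z • x)‖ₑ = 0 := by
    filter_upwards [ae_all_iff.2 A, ae_all_iff.2 B, ae_all_iff.2 C, D, ae_restrict_mem sh_m]
      with x a b c d hx
    have co : Continuous fun z : ℂ => z0 + z • x := by fun_prop
    have sg := mG.comp_measurable co.measurable
    have inb : ∀ z : ℂ, ‖z‖ ≤ R → ‖z0 + z • x - z0‖ ≤ 2 * R := fun z hz => by
      rw [add_sub_cancel_left, norm_smul]; nlinarith [hx.2, norm_nonneg z, norm_nonneg x]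
    refine (line2 hc hq R0 (U := fun z => u (z0 + z • x))
      (G := fun z => dG (G (z0 + z • x)) x) (P := fun z => 2 * P (z0 + z • x))
      (mu.comp_measurable co.measurable)
      (((apply ℝ F x).continuous.comp_stronglyMeasurable sg).add
        (((apply ℝ F (I • x)).continuous.comp_stronglyMeasurable sg).const_smul I))
      ((mP.comp co.measurable).const_mul _) (fun δ δ0 ε ε0 => ?_) (fun δ δ0 => ?_)
      (fun N t t0 ε ε0 => ?_) (fun z => one_le_mul_of_one_le_of_one_le one_le_two (P1 _))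
      (fun z => ?_) ?_).mono fun z hz k => by simp [hz k]
    · obtain ⟨m, hm⟩ := exists_nat_one_div_lt δ0
      obtain ⟨j, hj⟩ := (a m ε ε0).exists
      refine ⟨fun z => uj j (z0 + z • x), (su j).comp (by fun_prop), le_trans ?_ hj.le⟩
      refine le_trans (setLIntegral_mono' (ann_m _ _) fun z hz => ?_) (lintegral_mono_set
        (show ann δ R ⊆ ann (1 / (m + 1)) R from fun z hz => ⟨hm.le.trans hz.1, hz.2⟩))
      rw [db_orb (su j), mder μ R0 iu iG hw j (inb z hz.2)]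
      gcongr
      refine le_trans (le_of_eq ?_) (dG_le _ hx)
      congr 1
      simp only [dG, Gj, sub_apply, smul_sub]; abel
    · obtain ⟨m, hm⟩ := exists_nat_one_div_lt δ0
      refine lt_of_le_of_lt ?_ (b m)
      refine le_trans (lintegral_mono fun z => ?_) (lintegral_mono_set
        (show ann δ R ⊆ ann (1 / (m + 1)) R from fun z hz => ⟨hm.le.trans hz.1, hz.2⟩))
      exact add_le_add_right (dG_le _ hx) _
    · obtain ⟨j, hj, jt⟩ := ((c N ε ε0).and_eventually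
        ((tendsto_one_div_add_atTop_nhds_zero_nat (𝕜 := ℝ)).eventually (gt_mem_nhds t0))).exists
      refine ⟨_, dp j, jt, ?_⟩
      rw [mul_comm ε]
      exact (ENNReal.inv_mul_le_iff (ENNReal.ofReal_pos.2 (pow_pos (dp j) _)).ne'
        ENNReal.ofReal_ne_top).1 hj.le
    · have x0 : ‖x‖ₑ ≠ 0 := by
        have : 0 < ‖x‖ := by linarith [hx.1]
        simpa using this
      have x2 : ‖x‖ₑ ≤ 2 := by
        rw [← ofReal_norm, ← ENNReal.ofReal_ofNat]
        exact ENNReal.ofReal_le_ofReal hx.2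
      refine (hG _ x).trans ?_
      gcongr
      rw [add_sub_cancel_left, enorm_smul, add_mul]
      refine add_le_add (by rw [mul_comm 2]; gcongr) (le_of_eq ?_)
      rw [ENNReal.mul_inv (.inr enorm_ne_top) (.inr x0), mul_assoc, mul_assoc,
        ENNReal.inv_mul_cancel x0 enorm_ne_top, mul_one]
    · have x0 : ‖x‖ₑ ≠ 0 := by
        have : 0 < ‖x‖ := by linarith [hx.1]
        simpa using this
      have ct1 : (2 : ℝ≥0∞) ^ q * ‖x‖ₑ ^ (-(q - 2 * (n : ℝ))) ≠ ⊤ :=
        ENNReal.mul_ne_top (ENNReal.rpow_lt_top_of_nonneg (by linarith) (by simp)).ne (by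
          simp [ENNReal.rpow_eq_top_iff, x0])
      refine lt_of_le_of_lt ?_ (ENNReal.mul_lt_top ct1.lt_top d)
      rw [← lintegral_const_mul' _ _ ct1]
      refine le_trans ?_ (setLIntegral_le_lintegral (ann 0 R) _)
      refine lintegral_mono_ae ?_
      filter_upwards [ae_restrict_of_ae ((volume : Measure ℂ).ae_ne 0),
        ae_restrict_mem (ann_m 0 R)] with z hz0 hz
      have z0' : ‖z‖ₑ ≠ 0 := by simpa using hz0
      rw [indicator_of_mem (by rw [mem_closedBall, dist_eq_norm]; exact inb z hz.2),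
        ENNReal.mul_rpow_of_nonneg _ _ (by linarith), add_sub_cancel_left, enorm_smul,
        ENNReal.mul_rpow_of_ne_top enorm_ne_top enorm_ne_top,
        show q - 2 = (2 * (n : ℝ) - 2) + (q - 2 * (n : ℝ)) by ring,
        ENNReal.rpow_add _ _ z0' enorm_ne_top]
      refine le_of_eq ?_
      have e : ‖x‖ₑ ^ (-(q - 2 * (n : ℝ))) * ‖x‖ₑ ^ (q - 2 * (n : ℝ)) = 1 := by
        rw [← ENNReal.rpow_add _ _ x0 enorm_ne_top, neg_add_cancel, ENNReal.rpow_zero]
      calc _ = 2 ^ q * (‖z‖ₑ ^ (2 * (n : ℝ) - 2) * (P (z0 + z • x) ^ q *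
              (‖z‖ₑ ^ (q - 2 * (n : ℝ)) * 1))) := by ring
        _ = _ := by rw [← e]; ring
  have := orbD μ hn (nu.comp tr) E1
  have k := (measurePreserving_add_left μ (-z0)).quasiMeasurePreserving.ae this
  filter_upwards [k] with y hy hb
  simpa using hy (by rw [mem_ball, dist_eq_norm] at hb; rwa [neg_add_eq_sub])

end Pool.Agent.KS6_19.SU
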