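import Pool.Agent.KS6_19.SU.B

set_option autoImplicit false
set_option linter.unusedSectionVars false

open Filter Topology Set MeasureTheory Metric Complex ContinuousLinearMap
open scoped ENNReal NNReal Real ContDiff

namespace Pool.Agent.KS6_19.SU

open Pool.Agent.H99.Ucp

variable {F : Type*} [NormedAddCommGroup F] [NormedSpace ℝ F] [NormedSpace ℂ F]
  [IsScalarTower ℝ ℂ F] [CompleteSpace F]
variable {E : Type*} [NormedAddCommGroup E] [NormedSpace ℝ E] [NormedSpace ℂ E]
  [IsScalarTower ℝ ℂ E] [FiniteDimensional ℂ E] [FiniteDimensional ℝ E] [MeasurableSpace E]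
  [BorelSpace E] (μ : Measure E) [μ.IsAddHaarMeasure]

lemma nearE (hn : 1 ≤ Module.finrank ℂ E) {s : ℝ} (hs : s < 2 * Module.finrank ℂ E) (z0 : E)
    (R : ℝ) : ∫⁻ y in closedBall z0 R, ‖y - z0‖ₑ ^ (-s) ∂μ < ⊤ := by
  have m : Measurable fun z : E => ‖z‖ ^ (-s) := by fun_prop
  have fr : Module.finrank ℝ E = 2 * Module.finrank ℂ E := by
    rw [← Module.finrank_mul_finrank ℝ ℂ E, Complex.finrank_real_complex]
  have : Nontrivial E := Module.nontrivial_of_finrank_pos (R := ℂ) hn
  have := integrableOn_ball_of_norm_le_rpow (μ := μ) (by omega)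
    (f := fun z : E => ‖z‖ ^ (-s)) (C := 1) (α := s) (r := R + 1) (by rw [fr]; push_cast; exact hs)
    (.of_forall fun z => by rw [one_mul, Real.norm_of_nonneg (by positivity)]) m.aestronglyMeasurable
  have h := this.2
  rw [hasFiniteIntegral_iff_ofReal (.of_forall fun z => by positivity)] at h
  rw [← lintegral_indicator measurableSet_ball] at h
  rw [← lintegral_indicator measurableSet_closedBall]
  rw [← lintegral_add_left_eq_self _ z0]
  refine lt_of_le_of_lt (lintegral_mono_ae ?_) h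
  filter_upwards [μ.ae_ne 0] with z hz
  by_cases k : z ∈ ball (0 : E) (R + 1)
  · rw [indicator_of_mem k, ← ENNReal.ofReal_rpow_of_pos (norm_pos_iff.2 hz), ofReal_norm]
    refine (indicator_le_self' (fun _ _ => zero_le) _).trans (le_of_eq ?_)
    rw [add_sub_cancel_left]
  · rw [indicator_of_notMem]
    · exact zero_le
    · intro h
      apply k
      rw [mem_closedBall, dist_eq_norm, add_sub_cancel_left] at h
      rw [mem_ball_zero_iff]
      linarith

lemma iind {Y : Type*} [NormedAddCommGroup Y] {g : E → Y} {K : Set E} (mK : MeasurableSet K)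
    (h : IntegrableOn g K μ) : Integrable (K.indicator g) μ := h.integrable_indicator mK

/-- Local strong unique continuation at `z0`. -/
lemma loc2 {c : ℝ} (hc : HardyOK c) {q : ℝ} (hq : 2 < q) (hn : 1 ≤ Module.finrank ℂ E) {R : ℝ} (R0 : 0 < R) {z0 : E} {u : E → F}
    {G : E → E →L[ℝ] F} {V : E → ℝ} (iu : IntegrableOn u (closedBall z0 (3 * R)) μ)
    (iG : IntegrableOn G (closedBall z0 (3 * R)) μ) (hw : Wk μ (ball z0 (3 * R)) u G)
    (mV0 : AEStronglyMeasurable V (μ.restrict (closedBall z0 (3 * R))))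
    (hV : ∫⁻ y in closedBall z0 (3 * R), ‖V y‖ₑ ^ q * ‖y - z0‖ₑ ^ (q - 2 * Module.finrank ℂ E) ∂μ < ⊤)
    (hG : ∀ᵐ y ∂μ, y ∈ closedBall z0 (3 * R) → ∀ x,
      ‖dG (G y) x‖ ≤ (V y + c / ‖y - z0‖) * ‖x‖ * ‖u y‖)
    (hv : V1 μ u z0) : ∀ᵐ y ∂μ, y ∈ ball z0 R → u y = 0 := by
  set K := closedBall z0 (3 * R)
  have mK : MeasurableSet K := measurableSet_closedBall
  have iu' := (integrable_indicator_iff mK).2 iu
  have iG' : Integrable (K.indicator G) μ := iind (Y := E →L[ℝ] F) μ mK iG
  have mV := (aestronglyMeasurable_indicator_iff mK).2 mV0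
  have eu := iu'.1.ae_eq_mk
  have eG := iG'.1.ae_eq_mk
  have eV := mV.ae_eq_mk
  set u' := iu'.1.mk
  set G' := iG'.1.mk
  set V' := mV.mk
  have h1 : ∀ᵐ y ∂μ, ∀ x, ‖dG (G' y) x‖ ≤ (V' y + c / ‖y - z0‖) * ‖x‖ * ‖u' y‖ := by
    filter_upwards [hG, eu, eG, eV] with y a b c d x
    rw [← b, ← c, ← d]
    by_cases k : y ∈ K
    · simpa [k] using a k x
    · simp [k, dG]
  obtain ⟨N, N1, mN, N0⟩ := exists_measurable_superset_of_null (ae_iff.1 h1)
  have eG2 : K.indicator G =ᵐ[μ] Nᶜ.indicator G' := by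
    filter_upwards [eG, measure_eq_zero_iff_ae_notMem.1 N0] with y a b
    rw [a, indicator_of_mem b]
  have nV : Measurable fun y => ‖V' y‖ₑ := mV.stronglyMeasurable_mk.enorm
  have := ballv2 μ hc hq hn R0 (z0 := z0) (u := u') (G := Nᶜ.indicator G') (P := fun y => ‖V' y‖ₑ + 1)
    iu'.1.stronglyMeasurable_mk (iG'.1.stronglyMeasurable_mk.indicator mN.compl) (nV.add_const _)
    (iu'.congr eu) (iG'.congr eG2) (fun φ a b c v => ?_) (fun _ => le_add_self) ?_ (fun y x => ?_)
    (fun M => ?_)
  · filter_upwards [this, eu] with y a b k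
    rw [← a k, ← b, indicator_of_mem (ball_subset_closedBall.trans
      (closedBall_subset_closedBall (by linarith)) k)]
  · have s : tsupport φ ⊆ K := c.trans ball_subset_closedBall
    refine Eq.trans (integral_congr_ae (eu.mono fun y hy => ?_)) ((hw φ a b c v).trans
      (congrArg Neg.neg (integral_congr_ae (eG2.mono fun y hy => ?_))))
    · simp only [← hy]
      by_cases k : y ∈ K
      · rw [indicator_of_mem k]
      · have : fderiv ℝ φ y = 0 := by
          by_contra j
          exact k (s (support_fderiv_subset ℝ j))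
        simp [this]
    · simp only [← hy]
      by_cases k : y ∈ K
      · rw [indicator_of_mem k]
      · simp [image_eq_zero_of_notMem_tsupport fun j => k (s j)]
  · calc _ ≤ ∫⁻ y in K, 2 ^ (q - 1) * (‖V y‖ₑ ^ q * ‖y - z0‖ₑ ^ (q - 2 * Module.finrank ℂ E) +
            ‖y - z0‖ₑ ^ (-(2 * Module.finrank ℂ E - q))) ∂μ := by
          refine (lintegral_mono_set (closedBall_subset_closedBall (by linarith))).trans
            (lintegral_mono_ae ?_)
          filter_upwards [ae_restrict_of_ae eV, ae_restrict_mem mK] with y a k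
          rw [← a, indicator_of_mem k, neg_sub, ← add_one_mul, ← mul_assoc]
          gcongr
          simpa using ENNReal.rpow_add_le_mul_rpow_add_rpow ‖V y‖ₑ 1 (p := q) (by linarith)
      _ < ⊤ := by
          have t : (2 : ℝ≥0∞) ^ (q - 1) < ⊤ :=
            ENNReal.rpow_lt_top_of_nonneg (by linarith) (by simp)
          have mm : Measurable fun y => ‖y - z0‖ₑ ^ (-(2 * (Module.finrank ℂ E : ℝ) - q)) := by
            fun_prop
          rw [lintegral_const_mul' _ _ t.ne, lintegral_add_right _ mm]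
          exact ENNReal.mul_lt_top t (ENNReal.add_lt_top.2 ⟨hV, nearE μ hn (by linarith) z0 _⟩)
  · by_cases k : y ∈ N
    · simp [k, dG]
    have : ‖dG (G' y) x‖ ≤ (V' y + c / ‖y - z0‖) * ‖x‖ * ‖u' y‖ := by
      by_contra j
      exact k (N1 fun h => j (h x))
    rcases eq_or_ne y z0 with rfl | hyz
    · rw [indicator_of_mem k, sub_self, enorm_zero, ENNReal.inv_zero,
        ENNReal.mul_top (ENNReal.ofReal_pos.2 hc.1).ne']
      by_cases hx0 : x = 0
      · simp [hx0, dG]
      by_cases hu0 : u' y = 0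
      · rw [hu0, norm_zero, mul_zero] at this
        rw [norm_le_zero_iff.1 this, enorm_zero]; exact zero_le
      have hx1 : ‖x‖ₑ ≠ 0 := by simpa using hx0
      have hu1 : ‖u' y‖ₑ ≠ 0 := by simpa using hu0
      rw [add_top, ENNReal.top_mul hx1, ENNReal.top_mul hu1]
      exact le_top
    have hd : 0 < ‖y - z0‖ := norm_pos_iff.2 (sub_ne_zero.2 hyz)
    rw [indicator_of_mem k, ← ofReal_norm]
    have c0 := hc.1
    calc _ ≤ ENNReal.ofReal ((‖V' y‖ + c * ‖y - z0‖⁻¹) * ‖x‖ * ‖u' y‖) :=
          ENNReal.ofReal_le_ofReal (this.trans (by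
            rw [div_eq_mul_inv]; gcongr; exact le_abs_self _))
      _ = (‖V' y‖ₑ + .ofReal c * ‖y - z0‖ₑ⁻¹) * ‖x‖ₑ * ‖u' y‖ₑ := by
          rw [ENNReal.ofReal_mul (by positivity), ENNReal.ofReal_mul (by positivity),
            ENNReal.ofReal_add (by positivity) (by positivity), ENNReal.ofReal_mul hc.1.le,
            ENNReal.ofReal_inv_of_pos hd]
          simp only [ofReal_norm]
      _ ≤ _ := by gcongr; exact le_self_add
  · refine tendsto_of_tendsto_of_tendsto_of_le_of_le tendsto_const_nhds (hv M) (fun _ => zero_le)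
      fun r => mul_le_mul_right (lintegral_mono_ae ((ae_restrict_of_ae eu).mono fun y hy => ?_)) _
    rw [← hy]
    by_cases k : y ∈ K <;> simp [k]

end Pool.Agent.KS6_19.SU
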