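import Pool.Agent.KS6_19.SU.C

set_option autoImplicit false
set_option linter.unusedSectionVars false

open Filter Topology Set MeasureTheory Metric Complex ContinuousLinearMap
open scoped ENNReal NNReal Real ContDiff

namespace Pool.Agent.KS6_19.SU

open Pool.Agent.H99.Ucp

variable {F : Type*} [NormedAddCommGroup F] [NormedSpace ℝ F] [NormedSpace ℂ F]
  [IsScalarTower ℝ ℂ F] [CompleteSpace F]
variable {E : Type*} [NormedAddCommGroup E] [NormedSpace ℝ E] [NormedSpace ℂ E]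
  [IsScalarTower ℝ ℂ E] [FiniteDimensional ℂ E] [FiniteDimensional ℝ E] [MeasurableSpace E]
  [BorelSpace E] (μ : Measure E) [μ.IsAddHaarMeasure]

lemma v1_of_zero {u : E → F} {w : E} {e : ℝ} (e0 : 0 < e)
    (h : ∀ᵐ y ∂μ, y ∈ closedBall w e → u y = 0) : V1 μ u w := fun N => by
  refine tendsto_const_nhds.congr' ?_
  filter_upwards [Ioo_mem_nhdsGT e0] with t ht
  have : ∫⁻ y in closedBall w t, ‖u y‖ₑ ∂μ = 0 := by
    refine (lintegral_congr_ae ?_).trans lintegral_zero
    filter_upwards [ae_restrict_of_ae h, ae_restrict_mem measurableSet_closedBall] with y k j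
    simp [k (closedBall_subset_closedBall ht.2.le j)]
  rw [this, mul_zero]

/-- Unique continuation from a small ball: the potential need only be in `L^p`, `p > 2`. -/
lemma weak {c : ℝ} (hc : HardyOK c) {p : ℝ} (hp : 2 < p) (hn : 1 ≤ Module.finrank ℂ E) {w : E}
    {R : ℝ} (R0 : 0 < R) {e : ℝ} (e0 : 0 < e) {u : E → F} {G : E → E →L[ℝ] F} {V : E → ℝ}
    (iu : IntegrableOn u (closedBall w (3 * R)) μ)
    (iG : IntegrableOn G (closedBall w (3 * R)) μ) (hw : Wk μ (ball w (3 * R)) u G)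
    (hV : MemLp V (.ofReal p) (μ.restrict (closedBall w (3 * R))))
    (hG : ∀ᵐ y ∂μ, y ∈ closedBall w (3 * R) → ∀ x, ‖dG (G y) x‖ ≤ V y * ‖x‖ * ‖u y‖)
    (h0 : ∀ᵐ y ∂μ, y ∈ closedBall w e → u y = 0) : ∀ᵐ y ∂μ, y ∈ ball w R → u y = 0 := by
  have p0 : 0 < p := by linarith
  have mE : MeasurableSet (closedBall w e)ᶜ := measurableSet_closedBall.compl
  refine loc2 μ hc hp hn R0 (V := (closedBall w e)ᶜ.indicator V) iu iG hw (hV.1.indicator mE) ?_ ?_
    (v1_of_zero μ e0 h0)
  · set s : ℝ := p - 2 * Module.finrank ℂ E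
    set M : ℝ≥0∞ := ENNReal.ofReal e ^ s + ENNReal.ofReal (3 * R) ^ s
    have M1 : M < ⊤ := by
      refine ENNReal.add_lt_top.2 ⟨lt_top_iff_ne_top.2 ?_, lt_top_iff_ne_top.2 ?_⟩
      · simp [ENNReal.rpow_eq_top_iff, e0]
      · have h3 : ENNReal.ofReal (3 * R) ≠ 0 := (ENNReal.ofReal_pos.2 (by positivity)).ne'
        simp only [ne_eq, ENNReal.rpow_eq_top_iff, h3, ENNReal.ofReal_ne_top, false_and, or_self,
          not_false_eq_true]
    have f := hV.2
    rw [eLpNorm_lt_top_iff_lintegral_rpow_enorm_lt_top (ENNReal.ofReal_pos.2 p0).ne'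
      ENNReal.ofReal_ne_top, ENNReal.toReal_ofReal p0.le] at f
    refine lt_of_le_of_lt ?_ (ENNReal.mul_lt_top M1 f)
    rw [← lintegral_const_mul' _ _ M1.ne]
    refine setLIntegral_mono' measurableSet_closedBall fun y hy => ?_
    by_cases k : y ∈ closedBall w e
    · rw [indicator_of_notMem (by simpa using k), enorm_zero, ENNReal.zero_rpow_of_pos p0, zero_mul]
      exact zero_le
    · rw [indicator_of_mem (by simpa using k), mul_comm]
      gcongr
      rw [mem_closedBall, dist_eq_norm] at hy k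
      rw [not_le] at k
      have a1 : ENNReal.ofReal e ≤ ‖y - w‖ₑ := by
        rw [← ofReal_norm]; exact ENNReal.ofReal_le_ofReal k.le
      have a2 : ‖y - w‖ₑ ≤ ENNReal.ofReal (3 * R) := by
        rw [← ofReal_norm]; exact ENNReal.ofReal_le_ofReal hy
      rcases le_total 0 s with h | h
      · exact (ENNReal.rpow_le_rpow a2 h).trans le_add_self
      · have := anti (s := -s) (by linarith) a1
        rw [neg_neg] at this
        exact this.trans le_self_add
  · filter_upwards [hG, h0] with y a b k x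
    by_cases j : y ∈ closedBall w e
    · have := a k x
      rw [b j, norm_zero, mul_zero] at this ⊢
      exact this
    · rw [indicator_of_mem (by simpa using j)]
      refine (a k x).trans ?_
      have := div_nonneg hc.1.le (norm_nonneg (y - w))
      gcongr
      linarith

/-- Strong unique continuation on a connected open set. -/
theorem glob2 {c : ℝ} (hc : HardyOK c) {p q : ℝ} (hp : 2 < p) (hq : 2 < q)
    (hn : 1 ≤ Module.finrank ℂ E) {Ω : Set E} (ho : IsOpen Ω) (hcn : IsPreconnected Ω)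
    {u : E → F} {G : E → E →L[ℝ] F} {V : E → ℝ} {z0 : E} (h0 : z0 ∈ Ω)
    (iu : ∀ K ⊆ Ω, IsCompact K → IntegrableOn u K μ)
    (iG : ∀ K ⊆ Ω, IsCompact K → IntegrableOn G K μ) (hw : Wk μ Ω u G)
    (mV : AEStronglyMeasurable V (μ.restrict Ω))
    (hV : ∀ K ⊆ Ω \ {z0}, IsCompact K → MemLp V (.ofReal p) (μ.restrict K))
    {ρ : ℝ} (ρ0 : 0 < ρ)
    (hVρ : ∫⁻ y in closedBall z0 ρ, ‖V y‖ₑ ^ q * ‖y - z0‖ₑ ^ (q - 2 * Module.finrank ℂ E) ∂μ < ⊤)
    (hG : ∀ᵐ y ∂μ, y ∈ Ω → ∀ x, ‖dG (G y) x‖ ≤ (V y + c / ‖y - z0‖) * ‖x‖ * ‖u y‖)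
    (hv : V1 μ u z0) : ∀ᵐ y ∂μ, y ∈ Ω → u y = 0 := by
  have c0 := hc.1
  obtain ⟨r', r'0, hr'⟩ := nhds_basis_closedBall.mem_iff.1 (ho.mem_nhds h0)
  obtain ⟨r, r0, hr, hrρ⟩ : ∃ r > 0, closedBall z0 r ⊆ Ω ∧ r ≤ ρ :=
    ⟨min r' ρ, lt_min r'0 ρ0, (closedBall_subset_closedBall (min_le_left _ _)).trans hr',
      min_le_right _ _⟩
  -- near `z0`
  have near0 : ∀ᵐ y ∂μ, y ∈ ball z0 (r / 3) → u y = 0 := by
    have e3 : 3 * (r / 3) = r := by ring
    refine loc2 μ hc hq hn (R := r / 3) (V := V) (by positivity) (by rw [e3]; exact iu _ hr (isCompact_closedBall _ _))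
      (by rw [e3]; exact iG _ hr (isCompact_closedBall _ _))
      (fun φ a b d => hw φ a b (d.trans (ball_subset_closedBall.trans (by rw [e3]; exact hr))))
      (by rw [e3]; exact mV.mono_measure (Measure.restrict_mono hr le_rfl))
      (by rw [e3]; exact (lintegral_mono_set (closedBall_subset_closedBall hrρ)).trans_lt hVρ)
      (hG.mono fun y hy k => hy (hr (by rwa [e3] at k))) hv
  -- the potential away from `z0`
  set e : ℝ := r / 6 with he
  have e0 : 0 < e := by positivity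
  let W : E → ℝ := (ball z0 e)ᶜ.indicator fun y => V y + c / ‖y - z0‖
  have mB : MeasurableSet (ball z0 e)ᶜ := measurableSet_ball.compl
  have hGW : ∀ᵐ y ∂μ, y ∈ Ω → ∀ x, ‖dG (G y) x‖ ≤ W y * ‖x‖ * ‖u y‖ := by
    filter_upwards [hG, near0] with y a b k x
    by_cases j : y ∈ ball z0 e
    · have := a k x
      have hu : u y = 0 := b (ball_subset_ball (by rw [he]; linarith) j)
      rw [hu, norm_zero, mul_zero] at this ⊢
      exact this
    · show _ ≤ (ball z0 e)ᶜ.indicator (fun y => V y + c / ‖y - z0‖) y * _ * _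
      rw [indicator_of_mem (by simpa using j)]
      exact a k x
  have hVW : ∀ K ⊆ Ω, IsCompact K → MemLp W (.ofReal p) (μ.restrict K) := by
    intro K hK cK
    rw [memLp_indicator_iff_restrict mB, Measure.restrict_restrict mB]
    have cK' : IsCompact ((ball z0 e)ᶜ ∩ K) := cK.inter_left isOpen_ball.isClosed_compl
    have hK' : (ball z0 e)ᶜ ∩ K ⊆ Ω \ {z0} := fun y hy => ⟨hK hy.2, fun h => hy.1 (by
      rw [mem_singleton_iff.1 h]; exact mem_ball_self e0)⟩
    have : IsFiniteMeasure (μ.restrict ((ball z0 e)ᶜ ∩ K)) :=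
      isFiniteMeasure_restrict.2 cK'.measure_lt_top.ne
    refine (hV _ hK' cK').add (MemLp.of_bound (C := c / e) ?_ ?_)
    · exact (Measurable.aestronglyMeasurable (by fun_prop))
    · filter_upwards [ae_restrict_mem cK'.measurableSet] with y hy
      have : e ≤ ‖y - z0‖ := by
        have := hy.1
        rw [mem_compl_iff, mem_ball, dist_eq_norm, not_lt] at this
        exact this
      rw [Real.norm_of_nonneg (by positivity)]
      gcongr
  have L : ∀ w R, 0 < R → closedBall w (3 * R) ⊆ Ω → ∀ e, 0 < e →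
      (∀ᵐ y ∂μ, y ∈ closedBall w e → u y = 0) → ∀ᵐ y ∂μ, y ∈ ball w R → u y = 0 :=
    fun w R R0 s e e0 v =>
    weak μ hc hp hn R0 e0 (iu _ s (isCompact_closedBall _ _)) (iG _ s (isCompact_closedBall _ _))
      (fun φ a b c => hw φ a b (c.trans (ball_subset_closedBall.trans s)))
      (hVW _ s (isCompact_closedBall _ _)) (hGW.mono fun y hy k => hy (s k)) v
  let Z := {z : E | ∃ O, IsOpen O ∧ z ∈ O ∧ ∀ᵐ y ∂μ, y ∈ O → u y = 0}
  have oZ : IsOpen Z := isOpen_iff_mem_nhds.2 fun z ⟨O, a, b, c⟩ =>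
    mem_of_superset (a.mem_nhds b) fun y hy => ⟨O, a, hy, c⟩
  have sub : Ω ⊆ Z := by
    refine hcn.subset_of_closure_inter_subset oZ ?_ fun z ⟨hz, zΩ⟩ => ?_
    · exact ⟨z0, h0, _, isOpen_ball, mem_ball_self (by positivity), near0⟩
    obtain ⟨r, r0, hr⟩ := nhds_basis_closedBall.mem_iff.1 (ho.mem_nhds zΩ)
    obtain ⟨w, ⟨O, a, b, c⟩, hw⟩ := Metric.mem_closure_iff.1 hz (r / 4) (by positivity)
    obtain ⟨e, e0, he⟩ := nhds_basis_closedBall.mem_iff.1 (a.mem_nhds b)
    exact ⟨_, isOpen_ball, hw, L w (r / 4) (by positivity)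
      ((closedBall_subset_closedBall' (by rw [dist_comm]; linarith)).trans hr) e e0
      (c.mono fun y hy k => hy (he k))⟩
  rw [ae_iff]
  refine measure_null_of_locally_null _ fun x hx => ?_
  rw [mem_ofPred_eq, Classical.not_imp] at hx
  obtain ⟨O, a, b, c⟩ := sub hx.1
  refine ⟨_, inter_mem_nhdsWithin _ (a.mem_nhds b), measure_mono_null (fun y hy => ?_) (ae_iff.1 c)⟩
  exact fun k => hy.1 fun _ => k hy.2

end Pool.Agent.KS6_19.SU
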