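import Mathlib

set_option autoImplicit false

open Filter Topology Set Metric
open scoped ContDiff BigOperators

namespace Pool.Agent.KS6_19.SU.Ex

abbrev Cn (n : ℕ) : Type := EuclideanSpace ℂ (Fin n)

noncomputable def psi : ContDiffBump (5/4 : ℝ) := ⟨3/4, 1, by norm_num, by norm_num⟩

noncomputable def al {n : ℕ} (w : Cn n) : ℝ := psi (‖w‖^2)

lemma al_one {n : ℕ} {w : Cn n} (h1 : 1/2 ≤ ‖w‖^2) (h2 : ‖w‖^2 ≤ 2) : al w = 1 := by
  refine psi.one_of_mem_closedBall ?_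
  rw [mem_closedBall, Real.dist_eq, abs_le]
  change -(3/4 : ℝ) ≤ _ ∧ _ ≤ (3/4 : ℝ)
  constructor <;> linarith

lemma al_zero {n : ℕ} {w : Cn n} (h : ‖w‖^2 ≤ 1/4 ∨ 9/4 ≤ ‖w‖^2) : al w = 0 := by
  refine psi.zero_of_le_dist ?_
  change (1 : ℝ) ≤ _
  rw [Real.dist_eq, le_abs]
  rcases h with h | h
  · right; linarith
  · left; linarith

lemma al_nn {n : ℕ} (w : Cn n) : 0 ≤ al w := psi.nonneg

lemma al_cd {n : ℕ} : ContDiff ℝ ∞ (al : Cn n → ℝ) :=
  psi.contDiff.comp (contDiff_norm_sq ℂ)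

lemma al_supp {n : ℕ} {w : Cn n} (h : w ∈ Function.support (al : Cn n → ℝ)) :
    1/4 < ‖w‖^2 ∧ ‖w‖^2 < 9/4 := by
  by_contra hc
  rw [not_and_or, not_lt, not_lt] at hc
  exact h (al_zero hc)

lemma al_tsupp {n : ℕ} {w : Cn n} (h : w ∈ tsupport (al : Cn n → ℝ)) :
    1/4 ≤ ‖w‖^2 ∧ ‖w‖^2 ≤ 9/4 := by
  have hcl : IsClosed {w : Cn n | 1/4 ≤ ‖w‖^2 ∧ ‖w‖^2 ≤ 9/4} :=
    (isClosed_le (f := fun _ : Cn n => (1/4 : ℝ)) (g := fun w => ‖w‖^2) continuous_const
      (continuous_norm.pow 2)).inter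
      (isClosed_le (f := fun w : Cn n => ‖w‖^2) (g := fun _ => (9/4 : ℝ)) (continuous_norm.pow 2)
        continuous_const)
  have hs : Function.support (al : Cn n → ℝ) ⊆ {w : Cn n | 1/4 ≤ ‖w‖^2 ∧ ‖w‖^2 ≤ 9/4} :=
    fun w hw => And.intro (al_supp hw).1.le (al_supp hw).2.le
  exact closure_minimal hs hcl h

lemma al_cs {n : ℕ} : HasCompactSupport (al : Cn n → ℝ) := by
  refine HasCompactSupport.of_support_subset_isCompact (isCompact_closedBall (0 : Cn n) 2) ?_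
  intro w hw
  rw [mem_closedBall_zero_iff]
  nlinarith [(al_supp hw).2, norm_nonneg w]

noncomputable def be (n : ℕ) : ContDiffBump (0 : Cn n) := ⟨2, 3, by norm_num, by norm_num⟩

noncomputable def hh {n : ℕ} (j : Fin n) (w : Cn n) : ℂ := (be n w : ℂ) * w j

lemma cd_coord {n : ℕ} (j : Fin n) : ContDiff ℝ ∞ (fun w : Cn n => w j) :=
  ((EuclideanSpace.proj j : Cn n →L[ℂ] ℂ).restrictScalars ℝ).contDiff

lemma hh_cd {n : ℕ} (j : Fin n) : ContDiff ℝ ∞ (hh j) :=
  (Complex.ofRealCLM.contDiff.comp (be n).contDiff).mul (cd_coord j)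

lemma hh_cs {n : ℕ} (j : Fin n) : HasCompactSupport (hh j) := by
  refine HasCompactSupport.of_support_subset_isCompact (isCompact_closedBall (0 : Cn n) 3) ?_
  intro w hw
  by_contra hc
  rw [mem_closedBall, not_le] at hc
  exact hw (by rw [hh, (be n).zero_of_le_dist hc.le]; simp)

noncomputable def gg {n : ℕ} (j : Fin n) : ℕ → Cn n → ℂ
  | 0, w => (al w : ℂ)
  | k+1, w => gg j k w * hh j w

lemma gg_eq {n : ℕ} (j : Fin n) (k : ℕ) (w : Cn n) : gg j k w = (al w : ℂ) * (w j)^k := by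
  induction k with
  | zero => simp [gg]
  | succ k ih =>
    rw [gg, ih, hh]
    by_cases h : al w = 0
    · simp [h]
    have := (al_supp (w := w) h).2
    have h1 : be n w = 1 := by
      refine (be n).one_of_mem_closedBall ?_
      rw [mem_closedBall_zero_iff]
      change ‖w‖ ≤ 2
      nlinarith [norm_nonneg w]
    rw [h1]; push_cast; ring

lemma gg_cd {n : ℕ} (j : Fin n) (k : ℕ) : ContDiff ℝ ∞ (gg j k) := by
  induction k with
  | zero => exact Complex.ofRealCLM.contDiff.comp al_cd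
  | succ k ih => exact ih.mul (hh_cd j)

lemma bdd_cs {n : ℕ} {F : Cn n → ℂ} (hF : ContDiff ℝ ∞ F) (hc : HasCompactSupport F) (N : ℕ) :
    ∃ M, 0 ≤ M ∧ ∀ i ≤ N, ∀ w, ‖iteratedFDeriv ℝ i F w‖ ≤ M := by
  have h : ∀ i : ℕ, ∃ C, ∀ w, ‖iteratedFDeriv ℝ i F w‖ ≤ C := fun i =>
    (hF.continuous_iteratedFDeriv (by exact_mod_cast le_top)).bounded_above_of_compact_support
      (hc.iteratedFDeriv i)
  choose C hC using h
  refine ⟨∑ i ∈ Finset.range (N+1), |C i|, by positivity, fun i hi w => ?_⟩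
  exact ((hC i w).trans (le_abs_self _)).trans
    (Finset.single_le_sum (f := fun i => |C i|) (fun _ _ => abs_nonneg _)
      (Finset.mem_range.2 (by omega)))

lemma bdd_gg1 {n : ℕ} (N : ℕ) (j : Fin n) :
    ∃ B, 1 ≤ B ∧ ∀ k, ∀ i ≤ N, ∀ w, ‖iteratedFDeriv ℝ i (gg j k) w‖ ≤ B^(k+1) := by
  obtain ⟨M, M0, hM⟩ := bdd_cs (hh_cd j) (hh_cs j) N
  obtain ⟨M', M0', hM'⟩ := bdd_cs (n := n) (F := gg j 0) (gg_cd j 0)
    (by
      have : (gg j 0 : Cn n → ℂ) = fun w => ((al w : ℝ) : ℂ) := rfl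
      rw [this]
      exact al_cs.comp_left (g := fun x : ℝ => (x : ℂ)) Complex.ofReal_zero) N
  refine ⟨1 + 2^N * M + M', by nlinarith [pow_pos (two_pos : (0:ℝ) < 2) N, mul_nonneg (pow_pos (two_pos : (0:ℝ) < 2) N).le M0], fun k => ?_⟩
  set B := 1 + 2^N * M + M' with hB
  have B0 : 0 ≤ B := by positivity
  induction k with
  | zero => intro i hi w; rw [zero_add, pow_one]
            exact (hM' i hi w).trans (by rw [hB]; nlinarith [mul_nonneg (pow_pos (two_pos : (0:ℝ) < 2) N).le M0])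
  | succ k ih =>
    intro i hi w
    have h1 := norm_iteratedFDeriv_mul_le (gg_cd j k) (hh_cd j) w (n := i) (by exact_mod_cast le_top)
    refine h1.trans ?_
    calc _ ≤ ∑ l ∈ Finset.range (i+1), (i.choose l : ℝ) * (B^(k+1) * M) := by
          refine Finset.sum_le_sum fun l hl => ?_
          rw [Finset.mem_range] at hl
          rw [mul_assoc]
          refine mul_le_mul_of_nonneg_left ?_ (by positivity)
          exact mul_le_mul (ih l (by omega) w) (hM _ (by omega) w) (norm_nonneg _) (by positivity)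
      _ = 2^i * (B^(k+1) * M) := by
          rw [← Finset.sum_mul, ← Nat.cast_sum, Nat.sum_range_choose]; push_cast; rfl
      _ ≤ 2^N * (B^(k+1) * M) := by
          refine mul_le_mul_of_nonneg_right (pow_le_pow_right₀ (by norm_num) hi) (by positivity)
      _ = (2^N * M) * B^(k+1) := by ring
      _ ≤ B * B^(k+1) := mul_le_mul_of_nonneg_right (by rw [hB]; linarith) (by positivity)
      _ = _ := by ring

lemma bdd_gg {n : ℕ} (N : ℕ) :
    ∃ B, 1 ≤ B ∧ ∀ (j : Fin n) k, ∀ i ≤ N, ∀ w, ‖iteratedFDeriv ℝ i (gg j k) w‖ ≤ B^(k+1) := by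
  choose B h1 hB using fun j : Fin n => bdd_gg1 N j
  refine ⟨1 + ∑ j, B j, ?_, fun j k i hi w => ?_⟩
  · have : 0 ≤ ∑ j, B j := Finset.sum_nonneg fun j _ => by linarith [h1 j]
    linarith
  · refine (hB j k i hi w).trans (pow_le_pow_left₀ (by linarith [h1 j]) ?_ _)
    have := Finset.single_le_sum (f := B) (fun j _ => by linarith [h1 j]) (Finset.mem_univ j)
    linarith

/-- coefficients -/
noncomputable def dd : ℕ → ℝ
  | 0 => 1
  | k+1 => dd k / 2^k

lemma dd_pos (k : ℕ) : 0 < dd k := by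
  induction k with
  | zero => simp [dd]
  | succ k ih => rw [dd]; positivity

lemma dd_sum (R : ℝ) (hR : 0 < R) : Summable fun k => dd k * R^k := by
  refine summable_of_ratio_test_tendsto_lt_one (l := 0) one_pos
    (Eventually.of_forall fun k => (mul_pos (dd_pos k) (pow_pos hR k)).ne') ?_
  have h : ∀ k, ‖dd (k+1) * R^(k+1)‖ / ‖dd k * R^k‖ = R * (1/2)^k := by
    intro k
    have := dd_pos k
    rw [Real.norm_of_nonneg (mul_pos (dd_pos _) (pow_pos hR _)).le,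
      Real.norm_of_nonneg (mul_pos (dd_pos _) (pow_pos hR _)).le, dd]
    field_simp
    rw [one_div, inv_pow]
    field_simp
    ring
  simp_rw [h]
  have := (tendsto_pow_atTop_nhds_zero_of_lt_one (r := (1/2:ℝ)) (by norm_num) (by norm_num)).const_mul R
  simpa using this

variable {n m : ℕ} (ob : Bool × Fin n → Cn m)

/-- the `k`-th profile -/
noncomputable def FF (k : ℕ) (w : Cn n) : Cn m := ∑ j, gg j k w • ob (k.bodd, j)

/-- the `k`-th term -/
noncomputable def ff (k : ℕ) (z : Cn n) : Cn m := dd k • FF ob k ((2:ℝ)^k • z)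

lemma FF_cd (k : ℕ) : ContDiff ℝ ∞ (FF ob k) :=
  ContDiff.sum fun j _ => (gg_cd j k).smul contDiff_const

lemma ff_cd (k : ℕ) : ContDiff ℝ ∞ (ff ob k) :=
  ((FF_cd ob k).comp (contDiff_const_smul _)).const_smul _

lemma FF_bd (hob : ∀ b, ‖ob b‖ ≤ 1) (N : ℕ) : ∃ B, 1 ≤ B ∧ ∀ k, ∀ i ≤ N, ∀ w,
    ‖iteratedFDeriv ℝ i (FF ob k) w‖ ≤ n * B^(k+1) := by
  obtain ⟨B, h1, hB⟩ := bdd_gg (n := n) N
  refine ⟨B, h1, fun k i hi w => ?_⟩
  have e : FF ob k = fun w => ∑ j, (fun w => gg j k w • ob (k.bodd, j)) w := rfl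
  rw [e, iteratedFDeriv_sum (f := fun j w => gg j k w • ob (k.bodd, j))
    (fun j _ => ((gg_cd j k).smul contDiff_const).of_le (by exact_mod_cast le_top))]
  rw [Finset.sum_apply]
  refine (norm_sum_le _ _).trans ?_
  calc _ ≤ ∑ j : Fin n, B^(k+1) := by
        refine Finset.sum_le_sum fun j _ => ?_
        set L : ℂ →L[ℝ] Cn m := ((ContinuousLinearMap.id ℂ ℂ).smulRight (ob (k.bodd, j))).restrictScalars ℝ
        have hL : ‖L‖ ≤ 1 := by
          refine ContinuousLinearMap.opNorm_le_bound _ zero_le_one fun x => ?_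
          change ‖x • ob (k.bodd, j)‖ ≤ _
          rw [norm_smul, one_mul]
          nlinarith [hob (k.bodd, j), norm_nonneg x]
        have h2 := L.norm_iteratedFDeriv_comp_left (f := gg j k) (x := w) (n := i)
          ((gg_cd j k).contDiffAt) (by exact_mod_cast le_top)
        refine h2.trans ?_
        calc _ ≤ 1 * B^(k+1) := mul_le_mul hL (hB j k i hi w) (norm_nonneg _) zero_le_one
          _ = _ := one_mul _
    _ = _ := by simp

lemma ff_bd (hob : ∀ b, ‖ob b‖ ≤ 1) (N : ℕ) : ∃ v : ℕ → ℝ, Summable v ∧ ∀ k, ∀ i ≤ N, ∀ z,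
    ‖iteratedFDeriv ℝ i (ff ob k) z‖ ≤ v k := by
  obtain ⟨B, h1, hB⟩ := FF_bd ob hob N
  refine ⟨fun k => n * B * (dd k * (2^N * B)^k), (dd_sum _ (by positivity)).mul_left _,
    fun k i hi z => ?_⟩
  have e : ff ob k = dd k • (fun z => FF ob k ((2:ℝ)^k • z)) := rfl
  have c1 : ContDiff ℝ ∞ (fun z => FF ob k ((2:ℝ)^k • z)) := (FF_cd ob k).comp (contDiff_const_smul _)
  rw [e, iteratedFDeriv_const_smul_apply (c1.contDiffAt.of_le (by exact_mod_cast le_top)),
    iteratedFDeriv_comp_const_smul _ ((FF_cd ob k).of_le (by exact_mod_cast le_top)), norm_smul,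
    norm_smul, Real.norm_of_nonneg (dd_pos k).le, Real.norm_of_nonneg (by positivity)]
  have h2 : ((2:ℝ)^k)^i ≤ (2^N)^k := by
    rw [← pow_mul, ← pow_mul]
    exact pow_le_pow_right₀ (by norm_num) (by nlinarith)
  calc dd k * (((2:ℝ)^k)^i * ‖iteratedFDeriv ℝ i (FF ob k) ((2:ℝ)^k • z)‖)
      ≤ dd k * ((2^N)^k * (n * B^(k+1))) := by
        refine mul_le_mul_of_nonneg_left ?_ (dd_pos k).le
        exact mul_le_mul h2 (hB k i hi _) (norm_nonneg _) (by positivity)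
    _ = _ := by simp only [mul_pow]; ring

/-- the example -/
noncomputable def uu (z : Cn n) : Cn m := ∑' k, ff ob k z

lemma uu_cd (hob : ∀ b, ‖ob b‖ ≤ 1) : ContDiff ℝ ∞ (uu ob) := by
  choose v hv hb using ff_bd ob hob
  exact contDiff_tsum (N := ⊤) (v := v) (fun k => ff_cd ob k) (fun k _ => hv k)
    (fun k i x _ => hb k i k le_rfl x)

lemma ff_zero {k : ℕ} {z : Cn n} (h : al ((2:ℝ)^k • z) = 0) : ff ob k z = 0 := by
  rw [ff, FF]
  simp [gg_eq, h]

lemma uu_flat (hob : ∀ b, ‖ob b‖ ≤ 1) (N : ℕ) : ∃ K, 0 ≤ K ∧ ∀ z, ‖uu ob z‖ ≤ K * ‖z‖^N := by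
  obtain ⟨B, h1, hB⟩ := FF_bd ob hob 0
  have hs : Summable fun k => n * B * 2^N * (dd k * (2^N * B)^k) :=
    (dd_sum (2^N*B) (by positivity)).mul_left _
  have hb : ∀ k z, ‖ff ob k z‖ ≤ n * B * 2^N * (dd k * (2^N * B)^k) * ‖z‖^N := by
    intro k z
    by_cases h : al ((2:ℝ)^k • z) = 0
    · rw [ff_zero ob h, norm_zero]
      have := dd_pos k
      positivity
    have h2 := (al_supp (w := (2:ℝ)^k • z) h).1
    rw [norm_smul, Real.norm_of_nonneg (by positivity)] at h2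
    have h3 : 1 ≤ (2:ℝ)^(k+1) * ‖z‖ := by
      rw [pow_succ]
      have : 0 ≤ (2:ℝ)^k * ‖z‖ := by positivity
      nlinarith
    have h4 : (1:ℝ) ≤ ((2:ℝ)^(k+1) * ‖z‖)^N := one_le_pow₀ h3
    have h5 : ‖ff ob k z‖ ≤ dd k * (n * B^(k+1)) := by
      rw [ff, norm_smul, Real.norm_of_nonneg (dd_pos k).le]
      have := hB k 0 le_rfl ((2:ℝ)^k • z)
      rw [norm_iteratedFDeriv_zero] at this
      exact mul_le_mul_of_nonneg_left this (dd_pos k).le
    calc ‖ff ob k z‖ ≤ dd k * (n * B^(k+1)) * 1 := by rw [mul_one]; exact h5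
      _ ≤ dd k * (n * B^(k+1)) * ((2:ℝ)^(k+1) * ‖z‖)^N := by
          refine mul_le_mul_of_nonneg_left h4 ?_
          have := dd_pos k
          positivity
      _ = _ := by
          rw [mul_pow, mul_pow, ← pow_mul, ← pow_mul]
          ring
  refine ⟨∑' k, n * B * 2^N * (dd k * (2^N * B)^k), ?_, fun z => ?_⟩
  · exact tsum_nonneg fun k => by have := dd_pos k; positivity
  · rw [← tsum_mul_right]
    exact tsum_of_norm_bounded (hs.mul_right _).hasSum fun k => hb k z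

end Pool.Agent.KS6_19.SU.Ex
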