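import Pool.Agent.KS6_19.SU.E

set_option autoImplicit false

open Filter Topology Set Metric
open scoped ContDiff BigOperators

namespace Pool.Agent.KS6_19.SU.Ex

variable {n m : ℕ} (ob : Bool × Fin n → Cn m)

noncomputable def PP (k : ℕ) (w : Cn n) : Cn m := ∑ j, (w j)^k • ob (k.bodd, j)

lemma FF_eq (k : ℕ) (w : Cn n) : FF ob k w = al w • PP ob k w := by
  rw [FF, PP, Finset.smul_sum]
  refine Finset.sum_congr rfl fun j _ => ?_
  rw [gg_eq, mul_smul]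
  rfl

lemma PP_smul (k : ℕ) (c : ℝ) (w : Cn n) : PP ob k (c • w) = c^k • PP ob k w := by
  rw [PP, PP, Finset.smul_sum]
  refine Finset.sum_congr rfl fun j _ => ?_
  have : (c • w) j = (c : ℂ) * w j := rfl
  rw [this, mul_pow, mul_smul, ← Complex.ofReal_pow]
  rfl

variable {ob}

lemma comb_norm (hob : Orthonormal ℂ ob) (b : Bool) (c : Fin n → ℂ) :
    ‖∑ j, c j • ob (b, j)‖^2 = ∑ j, ‖c j‖^2 := by
  have h1 : Orthonormal ℂ (fun j => ob (b, j)) :=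
    hob.comp (fun j => (b, j)) (fun i j h => (Prod.mk.inj h).2)
  have h2 := h1.inner_sum c c Finset.univ
  have h3 : ((‖∑ j, c j • ob (b, j)‖^2 : ℝ) : ℂ) = ((∑ j, ‖c j‖^2 : ℝ) : ℂ) := by
    have := inner_self_eq_norm_sq_to_K (𝕜 := ℂ) (∑ j, c j • ob (b, j))
    push_cast
    rw [show (Complex.ofReal ‖∑ j, c j • ob (b, j)‖) ^ 2 = inner ℂ (∑ j, c j • ob (b, j)) (∑ j, c j • ob (b, j)) from this.symm, h2]
    refine Finset.sum_congr rfl fun j _ => ?_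
    rw [mul_comm, Complex.mul_conj, Complex.normSq_eq_norm_sq]
    push_cast; rfl
  exact_mod_cast h3

lemma PP_norm (hob : Orthonormal ℂ ob) (k : ℕ) (w : Cn n) :
    ‖PP ob k w‖^2 = ∑ j, (‖w j‖^k)^2 := by
  rw [PP, comb_norm hob]
  simp

lemma le_of_sq {a b : ℝ} (hb : 0 ≤ b) (h : a^2 ≤ b^2) : a ≤ b := by
  by_contra hc
  push Not at hc
  nlinarith

lemma PP_succ (hob : Orthonormal ℂ ob) (k : ℕ) (w : Cn n) :
    ‖PP ob (k+1) w‖ ≤ ‖w‖ * ‖PP ob k w‖ := by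
  refine le_of_sq (by positivity) ?_
  rw [mul_pow, PP_norm hob, PP_norm hob, Finset.mul_sum]
  refine Finset.sum_le_sum fun j _ => ?_
  rw [pow_succ ‖w j‖ k, mul_pow, mul_comm]
  refine mul_le_mul_of_nonneg_right ?_ (by positivity)
  exact pow_le_pow_left₀ (norm_nonneg _) (PiLp.norm_apply_le w j) 2

lemma PP_pred (hob : Orthonormal ℂ ob) (k : ℕ) (w : Cn n) :
    ‖w‖ * ‖PP ob k w‖ ≤ n * ‖PP ob (k+1) w‖ := by
  rcases Nat.eq_zero_or_pos n with h0 | h0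
  · subst h0
    have : w = 0 := Subsingleton.elim _ _
    rw [this]; simp
  have : Nonempty (Fin n) := ⟨⟨0, h0⟩⟩
  obtain ⟨j0, hj0⟩ := Finite.exists_max (fun j => ‖w j‖)
  set M := ‖w j0‖
  have M0 : 0 ≤ M := norm_nonneg _
  have e1 : ‖w‖^2 ≤ n * M^2 := by
    rw [EuclideanSpace.norm_sq_eq]
    calc _ ≤ ∑ j : Fin n, M^2 := Finset.sum_le_sum fun j _ => pow_le_pow_left₀ (norm_nonneg _) (hj0 j) 2
      _ = _ := by simp
  have e2 : ‖PP ob k w‖^2 ≤ n * (M^k)^2 := by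
    rw [PP_norm hob]
    calc _ ≤ ∑ j : Fin n, (M^k)^2 := Finset.sum_le_sum fun j _ =>
          pow_le_pow_left₀ (by positivity) (pow_le_pow_left₀ (norm_nonneg _) (hj0 j) k) 2
      _ = _ := by simp
  have e3 : (M^(k+1))^2 ≤ ‖PP ob (k+1) w‖^2 := by
    rw [PP_norm hob]
    exact Finset.single_le_sum (f := fun j => (‖w j‖^(k+1))^2) (fun _ _ => by positivity)
      (Finset.mem_univ j0)
  refine le_of_sq (by positivity) ?_
  calc (‖w‖ * ‖PP ob k w‖)^2 = ‖w‖^2 * ‖PP ob k w‖^2 := by ring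
    _ ≤ (n * M^2) * (n * (M^k)^2) := mul_le_mul e1 e2 (by positivity) (by positivity)
    _ = n^2 * (M^(k+1))^2 := by ring
    _ ≤ n^2 * ‖PP ob (k+1) w‖^2 := mul_le_mul_of_nonneg_left e3 (by positivity)
    _ = _ := by ring

lemma PP_pos (hob : Orthonormal ℂ ob) (k : ℕ) {w : Cn n} (hw : w ≠ 0) : 0 < ‖PP ob k w‖ := by
  have : ∃ j, w j ≠ 0 := by
    by_contra hc
    push Not at hc
    exact hw (by ext j; simpa using hc j)
  obtain ⟨j, hj⟩ := this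
  have e3 : (‖w j‖^k)^2 ≤ ‖PP ob k w‖^2 := by
    rw [PP_norm hob]
    exact Finset.single_le_sum (f := fun j => (‖w j‖^k)^2) (fun _ _ => by positivity)
      (Finset.mem_univ j)
  have : 0 < (‖w j‖^k)^2 := by positivity
  have h2 : 0 < ‖PP ob k w‖^2 := by linarith
  by_contra hc
  have h3 : ‖PP ob k w‖ = 0 := le_antisymm (not_lt.1 hc) (norm_nonneg _)
  rw [h3] at h2
  norm_num at h2

/-- size of the `k`-th term -/
noncomputable def AA (ob : Bool × Fin n → Cn m) (k : ℕ) (z : Cn n) : ℝ := dd k * ‖PP ob k ((2:ℝ)^k • z)‖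

lemma AA_succ (k : ℕ) (z : Cn n) :
    AA ob (k+1) z = 2 * (dd k * ‖PP ob (k+1) ((2:ℝ)^k • z)‖) := by
  have : (2:ℝ)^(k+1) • z = (2:ℝ) • ((2:ℝ)^k • z) := by rw [smul_smul]; congr 1; ring
  rw [AA, this, PP_smul, norm_smul, dd, Real.norm_of_nonneg (by positivity), pow_succ]
  field_simp

lemma AA_up (hob : Orthonormal ℂ ob) (k : ℕ) {z : Cn n} (h2 : ‖(2:ℝ)^k • z‖^2 ≤ 2) :
    AA ob (k+1) z ≤ 3 * AA ob k z := by
  rw [AA_succ, AA]
  have h3 : ‖(2:ℝ)^k • z‖ ≤ 3/2 := le_of_sq (by norm_num) (by linarith)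
  have h4 := PP_succ hob k ((2:ℝ)^k • z)
  have h5 := dd_pos k
  have h6 : ‖PP ob (k+1) ((2:ℝ)^k • z)‖ ≤ 3/2 * ‖PP ob k ((2:ℝ)^k • z)‖ :=
    h4.trans (mul_le_mul_of_nonneg_right h3 (norm_nonneg _))
  nlinarith [mul_le_mul_of_nonneg_left h6 h5.le]

lemma AA_down (hob : Orthonormal ℂ ob) (k : ℕ) {z : Cn n} (h2 : 1/2 ≤ ‖(2:ℝ)^(k+1) • z‖^2) :
    AA ob k z ≤ 2 * n * AA ob (k+1) z := by
  rw [AA_succ, AA]
  have e : (2:ℝ)^(k+1) • z = (2:ℝ) • ((2:ℝ)^k • z) := by rw [smul_smul]; congr 1; ring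
  rw [e, norm_smul, Real.norm_of_nonneg (by norm_num)] at h2
  have h3 : 1/4 ≤ ‖(2:ℝ)^k • z‖ := le_of_sq (by positivity) (by nlinarith)
  have h4 := PP_pred hob k ((2:ℝ)^k • z)
  have h5 := dd_pos k
  have h6 : 1/4 * ‖PP ob k ((2:ℝ)^k • z)‖ ≤ n * ‖PP ob (k+1) ((2:ℝ)^k • z)‖ :=
    (mul_le_mul_of_nonneg_right h3 (norm_nonneg _)).trans h4
  nlinarith [mul_le_mul_of_nonneg_left h6 h5.le]

/-- the (unnormalised) conjugate-linear part of a real linear map -/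
noncomputable def DD (L : Cn n →L[ℝ] Cn m) (x : Cn n) : Cn m := L x + Complex.I • L (Complex.I • x)

lemma DD_sum (s : Finset ℕ) (L : ℕ → (Cn n →L[ℝ] Cn m)) (x : Cn n) :
    DD (∑ k ∈ s, L k) x = ∑ k ∈ s, DD (L k) x := by
  simp [DD, Finset.sum_add_distrib, Finset.smul_sum]

lemma al_fd (n : ℕ) : ∃ K, 0 ≤ K ∧ ∀ w : Cn n, ‖fderiv ℝ al w‖ ≤ K := by
  obtain ⟨K, hK⟩ := ((al_cd (n := n)).continuous_fderiv (by simp)).bounded_above_of_compact_support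
    (al_cs.fderiv (𝕜 := ℝ))
  exact ⟨K, (norm_nonneg _).trans (hK 0), hK⟩

lemma PP_hol (k : ℕ) (w : Cn n) : ∃ Q : Cn n →L[ℂ] Cn m, HasFDerivAt (PP ob k) (Q.restrictScalars ℝ) w := by
  have : DifferentiableAt ℂ (PP ob k) w := by
    unfold PP
    refine DifferentiableAt.fun_sum fun j _ => ?_
    refine DifferentiableAt.smul_const ?_ _
    refine DifferentiableAt.pow ?_ _
    exact (EuclideanSpace.proj j : Cn n →L[ℂ] ℂ).differentiableAt
  exact ⟨fderiv ℂ (PP ob k) w, this.hasFDerivAt.restrictScalars ℝ⟩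

lemma DD_ff {K : ℝ} (hK : ∀ w : Cn n, ‖fderiv ℝ al w‖ ≤ K) (k : ℕ) (z x : Cn n) :
    ‖DD (fderiv ℝ (ff ob k) z) x‖ ≤ 2 * 2^k * K * AA ob k z * ‖x‖ := by
  obtain ⟨Q, hQ⟩ := PP_hol (ob := ob) k ((2:ℝ)^k • z)
  have h1 : HasFDerivAt (al : Cn n → ℝ) (fderiv ℝ al ((2:ℝ)^k • z)) ((2:ℝ)^k • z) :=
    ((al_cd (n := n)).differentiable (by simp) _).hasFDerivAt
  have h2 : HasFDerivAt (fun z : Cn n => (2:ℝ)^k • z) ((2:ℝ)^k • ContinuousLinearMap.id ℝ (Cn n)) z :=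
    ((2:ℝ)^k • ContinuousLinearMap.id ℝ (Cn n)).hasFDerivAt
  have h3 := ((h1.smul hQ).comp z h2).const_smul (dd k)
  have h4 : HasFDerivAt (ff ob k) _ z := h3.congr_of_eventuallyEq
    (Eventually.of_forall fun z => by
      change dd k • FF ob k ((2:ℝ)^k • z) = dd k • (al ((2:ℝ)^k • z) • PP ob k ((2:ℝ)^k • z))
      rw [FF_eq])
  rw [h4.fderiv]
  set w := (2:ℝ)^k • z with hw
  have e : ∀ y : Cn n, (dd k • ((al w • Q.restrictScalars ℝ + (fderiv ℝ al w).smulRight (PP ob k w)).comp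
      ((2:ℝ)^k • ContinuousLinearMap.id ℝ (Cn n)))) y =
      (dd k * 2^k) • (al w • Q y + fderiv ℝ al w y • PP ob k w) := by
    intro y
    have e1 : ((2:ℝ)^k • ContinuousLinearMap.id ℝ (Cn n)) y = (2:ℝ)^k • y := rfl
    have e2 : Q ((2:ℝ)^k • y) = (2:ℝ)^k • Q y := (Q.restrictScalars ℝ).map_smul _ _
    rw [ContinuousLinearMap.smul_apply, ContinuousLinearMap.comp_apply, e1,
      ContinuousLinearMap.add_apply, ContinuousLinearMap.smul_apply,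
      ContinuousLinearMap.smulRight_apply, ContinuousLinearMap.coe_restrictScalars', e2, map_smul]
    simp only [smul_add, smul_smul, smul_eq_mul]
    congr 2
    · ring
    · ring
  rw [DD, e, e]
  have e3 : Q (Complex.I • x) = Complex.I • Q x := map_smul _ _ _
  have e4 : (dd k * 2^k) • (al w • Q x + fderiv ℝ al w x • PP ob k w) +
      Complex.I • (dd k * 2^k) • (al w • Q (Complex.I • x) + fderiv ℝ al w (Complex.I • x) • PP ob k w)
      = (dd k * 2^k) • ((((fderiv ℝ al w x : ℝ) : ℂ) + Complex.I * (fderiv ℝ al w (Complex.I • x) : ℝ)) •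
        PP ob k w) := by
    rw [e3]
    ext i
    simp only [PiLp.add_apply, PiLp.smul_apply, smul_eq_mul, Complex.real_smul]
    push_cast
    ring_nf
    simp only [Complex.I_sq]
    ring
  rw [e4, norm_smul, norm_smul, Real.norm_of_nonneg (by have := dd_pos k; positivity)]
  have h5 : ‖((fderiv ℝ al w x : ℝ) : ℂ) + Complex.I * (fderiv ℝ al w (Complex.I • x) : ℝ)‖ ≤ 2 * K * ‖x‖ := by
    refine (norm_add_le _ _).trans ?_
    rw [norm_mul, Complex.norm_I, one_mul, Complex.norm_real, Complex.norm_real]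
    have a1 := (fderiv ℝ al w).le_opNorm x
    have a2 := (fderiv ℝ al w).le_opNorm (Complex.I • x)
    rw [norm_smul, Complex.norm_I, one_mul] at a2
    nlinarith [mul_le_mul_of_nonneg_right (hK w) (norm_nonneg x)]
  have h6 := dd_pos k
  calc _ ≤ (dd k * 2^k) * ((2 * K * ‖x‖) * ‖PP ob k w‖) :=
        mul_le_mul_of_nonneg_left (mul_le_mul_of_nonneg_right h5 (norm_nonneg _)) (by positivity)
    _ = _ := by rw [AA]; ring

lemma ff_fd_zero {k : ℕ} {z : Cn n} (h : ‖(2:ℝ)^k • z‖^2 < 1/4 ∨ 9/4 < ‖(2:ℝ)^k • z‖^2) :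
    ff ob k z = 0 ∧ fderiv ℝ (ff ob k) z = 0 := by
  have hz : ∀ᶠ z' in 𝓝 z, ff ob k z' = 0 := by
    have hc : Continuous fun z : Cn n => ‖(2:ℝ)^k • z‖^2 := by fun_prop
    rcases h with h | h
    · filter_upwards [hc.continuousAt.eventually (gt_mem_nhds h)] with z' hz'
      exact ff_zero ob (al_zero (Or.inl hz'.le))
    · filter_upwards [hc.continuousAt.eventually (lt_mem_nhds h)] with z' hz'
      exact ff_zero ob (al_zero (Or.inr hz'.le))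
  refine ⟨hz.self_of_nhds, ?_⟩
  have : ff ob k =ᶠ[𝓝 z] fun _ => (0 : Cn m) := hz
  rw [this.fderiv_eq]; simp

lemma DD_ff2 {K : ℝ} (K0 : 0 ≤ K) (hK : ∀ w : Cn n, ‖fderiv ℝ al w‖ ≤ K) (k : ℕ) {z : Cn n}
    (hz : z ≠ 0) (x : Cn n) :
    ‖DD (fderiv ℝ (ff ob k) z) x‖ ≤ 3 * K / ‖z‖ * AA ob k z * ‖x‖ := by
  have hz' : 0 < ‖z‖ := norm_pos_iff.2 hz
  have hA : 0 ≤ AA ob k z := mul_nonneg (dd_pos k).le (norm_nonneg _)
  by_cases h : 9/4 < ‖(2:ℝ)^k • z‖^2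
  · rw [(ff_fd_zero (ob := ob) (Or.inr h)).2]
    have : DD (0 : Cn n →L[ℝ] Cn m) x = 0 := by simp [DD]
    rw [this, norm_zero]; positivity
  · refine (DD_ff hK k z x).trans ?_
    refine mul_le_mul_of_nonneg_right (mul_le_mul_of_nonneg_right ?_ hA) (norm_nonneg _)
    rw [le_div_iff₀ hz']
    have h3 : ‖(2:ℝ)^k • z‖ ≤ 3/2 := le_of_sq (by norm_num) (by linarith)
    rw [norm_smul, Real.norm_of_nonneg (by positivity)] at h3
    nlinarith [mul_le_mul_of_nonneg_left h3 K0]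

end Pool.Agent.KS6_19.SU.Ex
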