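import Pool.Agent.KS6_19.SU.F

set_option autoImplicit false

open Filter Topology Set Metric
open scoped ContDiff BigOperators

namespace Pool.Agent.KS6_19.SU.Ex

variable {n m : ℕ} {ob : Bool × Fin n → Cn m}

lemma shell {z : Cn n} (h0 : z ≠ 0) (h1 : ‖z‖ < 1) :
    ∃ k : ℕ, 1/2 ≤ ‖(2:ℝ)^k • z‖^2 ∧ ‖(2:ℝ)^k • z‖^2 < 2 := by
  have hz : 0 < ‖z‖ := norm_pos_iff.2 h0
  have e : ∀ k : ℕ, ‖(2:ℝ)^k • z‖^2 = 4^k * ‖z‖^2 := fun k => by
    rw [norm_smul, Real.norm_of_nonneg (by positivity), mul_pow, ← pow_mul, mul_comm k 2, pow_mul]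
    norm_num
  have hex : ∃ k : ℕ, 1/2 ≤ 4^k * ‖z‖^2 := by
    obtain ⟨k, hk⟩ := pow_unbounded_of_one_lt (1/2 / ‖z‖^2) (by norm_num : (1:ℝ) < 4)
    refine ⟨k, ?_⟩
    rw [div_lt_iff₀ (by positivity)] at hk
    exact hk.le
  classical
  refine ⟨Nat.find hex, by rw [e]; exact Nat.find_spec hex, ?_⟩
  rw [e]
  rcases Nat.eq_zero_or_pos (Nat.find hex) with h | h
  · rw [h, pow_zero, one_mul]; nlinarith
  · obtain ⟨k, hk⟩ := Nat.exists_eq_succ_of_ne_zero h.ne'
    have := Nat.find_min hex (m := k) (by omega)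
    push Not at this
    rw [hk, Nat.succ_eq_add_one, pow_succ]
    nlinarith

lemma far {z : Cn n} {k0 : ℕ} (h1 : 1/2 ≤ ‖(2:ℝ)^k0 • z‖^2) (h2 : ‖(2:ℝ)^k0 • z‖^2 < 2) {k : ℕ}
    (hk : k ∉ Finset.Icc (k0-1) (k0+1)) :
    ‖(2:ℝ)^k • z‖^2 < 1/4 ∨ 9/4 < ‖(2:ℝ)^k • z‖^2 := by
  have e : ∀ k : ℕ, ‖(2:ℝ)^k • z‖^2 = 4^k * ‖z‖^2 := fun k => by
    rw [norm_smul, Real.norm_of_nonneg (by positivity), mul_pow, ← pow_mul, mul_comm k 2, pow_mul]
    norm_num
  rw [e] at h1 h2 ⊢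
  rw [Finset.mem_Icc, not_and_or, not_le, not_le] at hk
  have hz : 0 ≤ ‖z‖^2 := by positivity
  rcases hk with hk | hk
  · left
    have : (4:ℝ)^k * 4^2 ≤ 4^k0 := by
      rw [← pow_add]; exact pow_le_pow_right₀ (by norm_num) (by omega)
    nlinarith [mul_le_mul_of_nonneg_right this hz]
  · right
    have : (4:ℝ)^k0 * 4^2 ≤ 4^k := by
      rw [← pow_add]; exact pow_le_pow_right₀ (by norm_num) (by omega)
    nlinarith [mul_le_mul_of_nonneg_right this hz]

lemma inner_ff (hob : Orthonormal ℂ ob) (b : Bool) (j : Fin n) (k : ℕ) (z : Cn n) :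
    inner ℂ (ob (b, j)) (ff ob k z) =
      if k.bodd = b then ((dd k * al ((2:ℝ)^k • z) : ℝ) : ℂ) * (((2:ℝ)^k • z) j)^k else 0 := by
  have e : ff ob k z = ((dd k * al ((2:ℝ)^k • z) : ℝ) : ℂ) • PP ob k ((2:ℝ)^k • z) := by
    rw [ff, FF_eq, smul_smul]; rfl
  rw [e, inner_smul_right, PP, inner_sum]
  simp_rw [inner_smul_right]
  have h := orthonormal_iff_ite.1 hob
  simp_rw [h, Prod.mk.injEq]
  by_cases hb : k.bodd = b
  · subst hb; simp
  · have : ¬ (b = k.bodd) := fun h => hb h.symm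
    simp [hb, this]

theorem uu_main (hob : Orthonormal ℂ ob) : ∃ C, 0 ≤ C ∧ ∀ z, z ≠ 0 → ‖z‖ < 1 → uu ob z ≠ 0 ∧
    ∀ x, ‖DD (fderiv ℝ (uu ob) z) x‖ ≤ C / ‖z‖ * ‖uu ob z‖ * ‖x‖ := by
  obtain ⟨K, K0, hK⟩ := al_fd n
  have hob1 : ∀ b, ‖ob b‖ ≤ 1 := fun b => (hob.1 b).le
  obtain ⟨v, hv, hb⟩ := ff_bd ob hob1 1
  refine ⟨3 * (3 * K * (3 + 2 * n)), by positivity, fun z h0 h1 => ?_⟩
  have hz : 0 < ‖z‖ := norm_pos_iff.2 h0
  obtain ⟨k0, s1, s2⟩ := shell h0 h1
  have hu : uu ob z = ∑ k ∈ Finset.Icc (k0-1) (k0+1), ff ob k z :=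
    tsum_eq_sum fun k hk => (ff_fd_zero (far s1 s2 hk)).1
  have hd : fderiv ℝ (uu ob) z = ∑ k ∈ Finset.Icc (k0-1) (k0+1), fderiv ℝ (ff ob k) z := by
    have hsum : Summable fun k => ff ob k z := by
      refine hv.of_norm_bounded fun k => ?_
      have := hb k 0 (by norm_num) z
      rwa [norm_iteratedFDeriv_zero] at this
    have := fderiv_tsum (𝕜 := ℝ) (f := ff ob) (x₀ := z) hv
      (fun k => (ff_cd ob k).differentiable (by simp))
      (fun k x => by
        have := hb k 1 le_rfl x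
        rwa [norm_iteratedFDeriv_one] at this) hsum
    have h2 := congrFun this z
    change fderiv ℝ (uu ob) z = _ at h2
    rw [h2]
    exact tsum_eq_sum fun k hk => (ff_fd_zero (far s1 s2 hk)).2
  have hAnn : ∀ k, 0 ≤ AA ob k z := fun k => mul_nonneg (dd_pos k).le (norm_nonneg _)
  -- neighbours are controlled by the central term
  have hnb : ∀ k ∈ Finset.Icc (k0-1) (k0+1), AA ob k z ≤ (3 + 2 * n) * AA ob k0 z := by
    intro k hk
    rw [Finset.mem_Icc] at hk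
    have hA := hAnn k0
    have hnA : 0 ≤ 2 * n * AA ob k0 z := by positivity
    rcases Nat.lt_trichotomy k k0 with h | h | h
    · obtain rfl : k0 = k + 1 := by omega
      have := AA_down hob k s1
      nlinarith
    · subst h; nlinarith
    · obtain rfl : k = k0 + 1 := by omega
      have := AA_up hob k0 s2.le
      nlinarith
  -- lower bound
  have hlow : AA ob k0 z ≤ ‖uu ob z‖ := by
    refine le_of_sq (norm_nonneg _) ?_
    have hin : ∀ j, inner ℂ (ob (k0.bodd, j)) (uu ob z) =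
        ((dd k0 : ℝ) : ℂ) * (((2:ℝ)^k0 • z) j)^k0 := by
      intro j
      rw [hu, inner_sum]
      simp_rw [inner_ff hob]
      rw [Finset.sum_eq_single k0]
      · rw [if_pos rfl, al_one s1 s2.le, mul_one]
      · intro k hk hne
        rw [Finset.mem_Icc] at hk
        rw [if_neg]
        have : k = k0 + 1 ∨ k0 = k + 1 := by omega
        rcases this with h | h
        · rw [h, Nat.bodd_succ]; simp
        · rw [h, Nat.bodd_succ]; simp
      · intro hk
        exact absurd (Finset.mem_Icc.2 ⟨by omega, by omega⟩) hk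
    have hbes := (hob.comp (fun j : Fin n => (k0.bodd, j)) (fun i j h => (Prod.mk.inj h).2)).sum_inner_products_le
      (uu ob z) (s := Finset.univ)
    refine le_trans (le_of_eq ?_) hbes
    rw [AA, mul_pow, PP_norm hob, Finset.mul_sum]
    refine Finset.sum_congr rfl fun j _ => ?_
    rw [Function.comp_apply, hin, norm_mul, Complex.norm_real, Real.norm_of_nonneg (dd_pos k0).le,
      norm_pow, mul_pow]
  refine ⟨?_, fun x => ?_⟩
  · have hw : (2:ℝ)^k0 • z ≠ 0 := smul_ne_zero (by positivity) h0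
    have : 0 < AA ob k0 z := mul_pos (dd_pos k0) (PP_pos hob k0 hw)
    exact norm_pos_iff.1 (this.trans_le hlow)
  · rw [hd, DD_sum]
    refine (norm_sum_le _ _).trans ?_
    calc _ ≤ ∑ k ∈ Finset.Icc (k0-1) (k0+1), 3 * K / ‖z‖ * ((3 + 2 * n) * ‖uu ob z‖) * ‖x‖ := by
          refine Finset.sum_le_sum fun k hk => ?_
          refine (DD_ff2 K0 hK k h0 x).trans ?_
          refine mul_le_mul_of_nonneg_right (mul_le_mul_of_nonneg_left ?_ (by positivity)) (norm_nonneg _)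
          exact (hnb k hk).trans (mul_le_mul_of_nonneg_left hlow (by positivity))
      _ = ((Finset.Icc (k0-1) (k0+1)).card : ℝ) * (3 * K / ‖z‖ * ((3 + 2 * n) * ‖uu ob z‖) * ‖x‖) := by
          rw [Finset.sum_const, nsmul_eq_mul]
      _ ≤ 3 * (3 * K / ‖z‖ * ((3 + 2 * n) * ‖uu ob z‖) * ‖x‖) := by
          refine mul_le_mul_of_nonneg_right ?_ (by positivity)
          rw [Nat.card_Icc]
          exact_mod_cast (by omega : k0 + 1 + 1 - (k0 - 1) ≤ 3)
      _ = _ := by field_simp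

end Pool.Agent.KS6_19.SU.Ex
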