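import Pool.Agent.KS6_19.SU.D

set_option autoImplicit false
set_option linter.unusedSectionVars false

open Filter Topology Set MeasureTheory Metric Complex ContinuousLinearMap
open scoped ENNReal NNReal Real ContDiff

namespace Pool.Agent.KS6_19.SU

open Pool.Agent.H99.Ucp

variable {F : Type*} [NormedAddCommGroup F] [NormedSpace ℝ F] [NormedSpace ℂ F]
  [IsScalarTower ℝ ℂ F] [CompleteSpace F]
variable {E : Type*} [NormedAddCommGroup E] [NormedSpace ℝ E] [NormedSpace ℂ E]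
  [IsScalarTower ℝ ℂ E] [FiniteDimensional ℂ E] [FiniteDimensional ℝ E] [MeasurableSpace E]
  [BorelSpace E] (μ : Measure E) [μ.IsAddHaarMeasure]

lemma v1g {u : E → F} {z0 : E} {s : ℝ} (s1 : 1 ≤ s)
    (h : ∀ N : ℕ, Tendsto (fun r : ℝ => (∫⁻ y in ball z0 r, ‖u y‖ₑ ^ s ∂μ) / ENNReal.ofReal (r ^ N))
      (𝓝[>] 0) (𝓝 0)) : V1 μ u z0 := fun N => by
  obtain ⟨j, hj⟩ := exists_nat_ge (s - 1)
  obtain ⟨M, hM⟩ : ∃ M, M = N + (N + 1) * j := ⟨_, rfl⟩
  have t2 : Tendsto (fun r : ℝ => 2 * r) (𝓝[>] 0) (𝓝[>] 0) :=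
    tendsto_nhdsWithin_iff.2 ⟨by
      simpa using ((continuous_const_mul (2 : ℝ)).tendsto 0).mono_left nhdsWithin_le_nhds,
      eventually_mem_nhdsWithin.mono fun r hr => mul_pos (two_pos (α := ℝ)) hr⟩
  have T1 := ENNReal.Tendsto.const_mul (a := .ofReal (2 ^ (M))) ((h (M)).comp t2)
    (.inr ENNReal.ofReal_ne_top)
  have T2 := ENNReal.Tendsto.mul_const (b := μ (closedBall z0 1)) (ENNReal.tendsto_ofReal
    (tendsto_id.mono_left (nhdsWithin_le_nhds (a := (0 : ℝ)) (s := Ioi 0))))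
    (.inr measure_closedBall_lt_top.ne)
  have T := T2.add T1
  simp only [mul_zero, ENNReal.ofReal_zero, zero_mul, add_zero] at T
  refine tendsto_of_tendsto_of_tendsto_of_le_of_le' tendsto_const_nhds T (.of_forall fun _ => zero_le) ?_
  filter_upwards [Ioo_mem_nhdsGT (zero_lt_one' ℝ)] with r ⟨r0, r1⟩
  have pw : ∀ y, (ENNReal.ofReal (r ^ N))⁻¹ * ‖u y‖ₑ ≤
      .ofReal r + .ofReal ((r ^ (M))⁻¹) * ‖u y‖ₑ ^ s := fun y => by
    rw [← ofReal_norm, ENNReal.ofReal_rpow_of_nonneg (norm_nonneg _) (by linarith),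
      ← ENNReal.ofReal_inv_of_pos (by positivity), ← ENNReal.ofReal_mul (by positivity),
      ← ENNReal.ofReal_mul (by positivity), ← ENNReal.ofReal_add r0.le (by positivity)]
    refine ENNReal.ofReal_le_ofReal ?_
    have p : 0 < r ^ (N + 1) := by positivity
    have p1 : r ^ (N + 1) ≤ 1 := pow_le_one₀ r0.le r1.le
    by_cases k : ‖u y‖ ≤ r ^ (N + 1)
    · calc _ ≤ (r ^ N)⁻¹ * r ^ (N + 1) := by gcongr
        _ = r := by field_simp; ring
        _ ≤ _ := le_add_of_nonneg_right (by positivity)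
    · rw [not_le] at k
      have u0 : 0 < ‖u y‖ := p.trans k
      have a : (r ^ (N + 1)) ^ j * ‖u y‖ ≤ ‖u y‖ ^ s := by
        rw [show s = (s - 1) + 1 by ring, Real.rpow_add u0, Real.rpow_one]
        gcongr
        calc _ = (r ^ (N + 1)) ^ (j : ℝ) := (Real.rpow_natCast _ _).symm
          _ ≤ (r ^ (N + 1)) ^ (s - 1) := Real.rpow_le_rpow_of_exponent_ge p p1 hj
          _ ≤ _ := Real.rpow_le_rpow p.le k.le (by linarith)
      calc _ = (r ^ (M))⁻¹ * ((r ^ (N + 1)) ^ j * ‖u y‖) := by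
            rw [hM, ← pow_mul, pow_add, mul_inv]; field_simp
        _ ≤ (r ^ (M))⁻¹ * ‖u y‖ ^ s := by gcongr
        _ ≤ _ := le_add_of_nonneg_left r0.le
  rw [← lintegral_const_mul' _ _ (by simp [r0])]
  refine (lintegral_mono pw).trans ?_
  rw [lintegral_add_left measurable_const, setLIntegral_const,
    lintegral_const_mul' _ _ ENNReal.ofReal_ne_top]
  refine add_le_add (mul_le_mul_right (measure_mono (closedBall_subset_closedBall r1.le)) _) ?_
  simp only [Function.comp_apply]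
  rw [div_eq_mul_inv, mul_comm (lintegral _ _), ← mul_assoc, ← ENNReal.ofReal_inv_of_pos (by positivity),
    ← ENNReal.ofReal_mul (by positivity), mul_pow, mul_inv, mul_inv_cancel_left₀ (by positivity)]
  exact mul_le_mul_right (lintegral_mono_set (closedBall_subset_ball (by linarith))) _

end Pool.Agent.KS6_19.SU
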